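import Pool.Agent.T2h61.RF.Stm

set_option autoImplicit false

namespace Pool.Agent.T2h61.RF.RFC

theorem t_RFC : S_RFC := by
  intro k A _ _ _ h W hW
  obtain ⟨n, hn⟩ : ∃ n, n = Module.finrank k W := ⟨_, rfl⟩
  induction n using Nat.strong_induction_on generalizing W with
  | _ n ih =>
    by_cases h0 : ∀ a ∈ W, a = 0
    · refine ⟨0, ?_, fun a ha _ => h0 a ha⟩
      exact
        { toFun := fun _ => 0
          map_one' := Subsingleton.elim _ _
          map_mul' := fun _ _ => Subsingleton.elim _ _
          map_zero' := rfl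
          map_add' := fun _ _ => Subsingleton.elim _ _
          commutes' := fun _ => Subsingleton.elim _ _ }
    · push Not at h0
      obtain ⟨a, ha, ha0⟩ := h0
      obtain ⟨m₁, φ₁, hφ₁⟩ := h a ha0
      let W' : Submodule k A := W ⊓ LinearMap.ker φ₁.toLinearMap
      have hlt : W' < W := lt_of_le_of_ne inf_le_left fun h => hφ₁ (by
        have : a ∈ W' := by rw [h]; exact ha
        exact this.2)
      have hW' : FiniteDimensional k W' := Submodule.finiteDimensional_of_le inf_le_left
      obtain ⟨m₂, φ₂, h₂⟩ := ih _ (by rw [hn]; exact Submodule.finrank_lt_finrank_of_lt hlt) W' hW' rfl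
      let ψ : A →ₐ[k] Matrix (Fin m₁ ⊕ Fin m₂) (Fin m₁ ⊕ Fin m₂) k :=
        { toFun := fun x => Matrix.fromBlocks (φ₁ x) 0 0 (φ₂ x)
          map_one' := by simp [Matrix.fromBlocks_one]
          map_mul' := fun x y => by simp [Matrix.fromBlocks_multiply]
          map_zero' := by simp
          map_add' := fun x y => by simp [Matrix.fromBlocks_add]
          commutes' := fun c => by
            simp only [AlgHom.commutes, Matrix.algebraMap_eq_diagonal, Matrix.fromBlocks_diagonal]
            congr 1
            ext i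
            cases i <;> rfl }
      refine ⟨m₁ + m₂, (Matrix.reindexAlgEquiv k k finSumFinEquiv).toAlgHom.comp ψ, fun b hb hb0 => ?_⟩
      have h3 : ψ b = 0 := (Matrix.reindexAlgEquiv k k finSumFinEquiv).injective (by
        rw [map_zero]; exact hb0)
      have h4 : Matrix.fromBlocks (φ₁ b) 0 0 (φ₂ b) = Matrix.fromBlocks 0 0 0 0 := by
        rw [Matrix.fromBlocks_zero]; exact h3
      have h5 := Matrix.fromBlocks_inj.1 h4
      exact h₂ b ⟨hb, h5.1⟩ h5.2.2.2

end Pool.Agent.T2h61.RF.RFC
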