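import Pool.Agent.T2h61.RF.Stm

/-! JET (helper5): the action on jets -/

set_option autoImplicit false

open Pool.Agent.T2h61.PL

namespace Pool.Agent.T2h61.RF.JET

open MvPolynomial

section

variable {k : Type} [Field k]

/-- the ideal -/
noncomputable def II (k : Type) [Field k] (N : ℕ) : Ideal (MvPolynomial (Fin 2) k) :=
  idealOfVars (Fin 2) k ^ (N + 1)

theorem mem_II {N : ℕ} {p : MvPolynomial (Fin 2) k} :
    p ∈ II k N ↔ ∀ x, Finsupp.degree x < N + 1 → p.coeff x = 0 :=
  mem_pow_idealOfVars_iff' (N + 1) p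

theorem mem_m {p : MvPolynomial (Fin 2) k} :
    p ∈ idealOfVars (Fin 2) k ↔ constantCoeff p = 0 := by
  have h := mem_pow_idealOfVars_iff' (σ := Fin 2) (R := k) 1 p
  rw [pow_one] at h
  rw [h]
  constructor
  · intro h1
    exact h1 0 (by simp)
  · intro h1 x hx
    have hx0 : x = 0 := by
      rw [← Finsupp.degree_eq_zero_iff]
      omega
    rw [hx0]
    exact h1

theorem le_comap (N : ℕ) (g : fixO k) : II k N ≤ (II k N).comap (g : Au k) := by
  have h1 : (idealOfVars (Fin 2) k).map ((g : Au k) : MvPolynomial (Fin 2) k →+* MvPolynomial (Fin 2) k) ≤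
      idealOfVars (Fin 2) k := by
    rw [Ideal.map_le_iff_le_comap]
    intro p hp
    rw [Ideal.mem_comap]
    rw [mem_m] at hp ⊢
    exact (g.2 p).trans hp
  rw [← Ideal.map_le_iff_le_comap]
  unfold II
  have h2 : ((idealOfVars (Fin 2) k) ^ (N + 1)).map (g : Au k) =
      ((idealOfVars (Fin 2) k).map (g : Au k)) ^ (N + 1) := Ideal.map_pow _ _ _
  rw [h2]
  exact Ideal.pow_right_mono h1 _

/-- the induced maps -/
noncomputable def F (N : ℕ) : fixO k →* Module.End k (MvPolynomial (Fin 2) k ⧸ II k N) where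
  toFun g := (Ideal.quotientMapₐ (II k N) ((g : Au k) : MvPolynomial (Fin 2) k →ₐ[k] MvPolynomial (Fin 2) k)
    (le_comap N g)).toLinearMap
  map_one' := by
    refine LinearMap.ext fun u => ?_
    obtain ⟨p, rfl⟩ := Ideal.Quotient.mk_surjective u
    rfl
  map_mul' a b := by
    refine LinearMap.ext fun u => ?_
    obtain ⟨p, rfl⟩ := Ideal.Quotient.mk_surjective u
    rfl

theorem F_mk (N : ℕ) (g : fixO k) (p : MvPolynomial (Fin 2) k) :
    F N g (Ideal.Quotient.mk (II k N) p) = Ideal.Quotient.mk (II k N) ((g : Au k) p) := rfl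

/-- the coefficients -/
noncomputable def co (k : Type) [Field k] (N : ℕ) :
    MvPolynomial (Fin 2) k →ₗ[k] ({x : Fin 2 →₀ ℕ // Finsupp.degree x < N + 1} → k) :=
  LinearMap.pi fun x => lcoeff k x.1

theorem finset_deg (N : ℕ) : Finite {x : Fin 2 →₀ ℕ // Finsupp.degree x < N + 1} := by
  refine Finite.of_injective
    (fun x => (⟨(x.1 : Fin 2 → ℕ) 0, ?_⟩, ⟨(x.1 : Fin 2 → ℕ) 1, ?_⟩) :
      {x : Fin 2 →₀ ℕ // Finsupp.degree x < N + 1} → Fin (N + 1) × Fin (N + 1)) ?_
  · exact (Finsupp.le_degree 0 x.1).trans_lt x.2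
  · exact (Finsupp.le_degree 1 x.1).trans_lt x.2
  · intro x y h
    have h0 := congrArg (fun z => (z.1 : ℕ)) h
    have h1 := congrArg (fun z => (z.2 : ℕ)) h
    apply Subtype.ext
    ext i
    fin_cases i
    · exact h0
    · exact h1

theorem fin_quot (N : ℕ) : FiniteDimensional k (MvPolynomial (Fin 2) k ⧸ II k N) := by
  have := finset_deg N
  let L : (MvPolynomial (Fin 2) k ⧸ II k N) →ₗ[k]
      ({x : Fin 2 →₀ ℕ // Finsupp.degree x < N + 1} → k) :=
    ((II k N).restrictScalars k).liftQ (co k N) (by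
      intro p hp
      rw [LinearMap.mem_ker]
      funext x
      exact mem_II.1 hp x.1 x.2)
  refine FiniteDimensional.of_injective L ?_
  rw [← LinearMap.ker_eq_bot]
  refine Submodule.ker_liftQ_eq_bot _ _ _ ?_
  intro p hp
  rw [LinearMap.mem_ker] at hp
  change p ∈ II k N
  rw [mem_II]
  intro x hx
  exact congrFun hp ⟨x, hx⟩

theorem eq_one {N : ℕ} (g : fixO k) (hN : ∀ i, dg ((g : Au k) (X i)) ≤ N)
    (h : F N g = 1) : g = 1 := by
  have h1 : ∀ i, (g : Au k) (X i) - X i ∈ II k N := by
    intro i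
    rw [← Ideal.Quotient.eq, ← F_mk, h]
    rfl
  have h2 : ∀ i, (g : Au k) (X i) = X i := by
    intro i
    rcases Nat.eq_zero_or_pos N with h0 | h0
    · exfalso
      have h3 := hN i
      rw [h0, Nat.le_zero, dg, totalDegree_eq_zero_iff_eq_C] at h3
      have h4 : coeff 0 ((g : Au k) (X i)) = 0 := by
        have h5 : constantCoeff ((g : Au k) (X i)) = constantCoeff (X i) := g.2 (X i)
        rw [constantCoeff_X] at h5
        exact h5
      rw [h4, map_zero] at h3
      have h6 : (X i : MvPolynomial (Fin 2) k) = 0 := (g : Au k).injective (h3.trans (map_zero _).symm)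
      exact X_ne_zero i h6
    · have h3 : totalDegree ((g : Au k) (X i) - X i) ≤ N :=
        (totalDegree_sub _ _).trans (max_le (hN i) ((totalDegree_X i).le.trans h0))
      have h4 : (g : Au k) (X i) - X i = 0 := by
        ext x
        rw [coeff_zero]
        by_cases hx : Finsupp.degree x < N + 1
        · exact mem_II.1 (h1 i) x hx
        · refine coeff_eq_zero_of_totalDegree_lt (lt_of_le_of_lt h3 ?_)
          have : Finsupp.degree x = ∑ i ∈ x.support, x i := rfl
          rw [← this]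
          omega
      exact sub_eq_zero.1 h4
  apply Subtype.ext
  apply AlgEquiv.ext
  intro p
  have h3 : (((g : Au k) : MvPolynomial (Fin 2) k →ₐ[k] MvPolynomial (Fin 2) k)) = AlgHom.id k _ :=
    MvPolynomial.algHom_ext fun i => h2 i
  exact DFunLike.congr_fun h3 p

end

theorem t_JET : S_JET := by
  intro k _ N
  refine ⟨MvPolynomial (Fin 2) k ⧸ II k N, inferInstance, inferInstance, fin_quot N,
    (F N).toHomUnits, fun g hg h => ?_⟩
  refine eq_one g hg ?_
  have h1 := congrArg (fun u : (Module.End k (MvPolynomial (Fin 2) k ⧸ II k N))ˣ => u.val) h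
  exact h1

end Pool.Agent.T2h61.RF.JET
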