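import Pool.Agent.T2h61.RF.Stm

set_option autoImplicit false

namespace Pool.Agent.T2h61.RF.ORD

open Pool.Agent.T2h61.RF Pool.Agent.T2h61.PL MvPolynomial

/-- the degree of the image of a polynomial -/
theorem dg_map {k : Type} [Field k] (g : Au k) (M : ℕ) (hM : ∀ j, dg (g (X j)) ≤ M)
    (u : MvPolynomial (Fin 2) k) : dg (g u) ≤ dg u * M := by
  unfold dg at *
  have h1 : g u = ∑ s ∈ u.support, g (C (coeff s u)) * ∏ j : Fin 2, (g (X j)) ^ (s j) := by
    conv_lhs => rw [u.as_sum]
    rw [map_sum]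
    refine Finset.sum_congr rfl fun s _ => ?_
    rw [monomial_eq, map_mul, Finsupp.prod_fintype _ _ (fun i => pow_zero _), map_prod]
    congr 1
    refine Finset.prod_congr rfl fun j _ => ?_
    rw [map_pow]
  rw [h1]
  refine totalDegree_finsetSum_le fun s hs => ?_
  refine (totalDegree_mul _ _).trans ?_
  have h2 : g (C (coeff s u)) = C (coeff s u) := g.commutes _
  rw [h2, totalDegree_C, zero_add]
  refine (totalDegree_finsetProd _ _).trans ?_
  have h3 : ∀ j ∈ (Finset.univ : Finset (Fin 2)), ((g (X j)) ^ (s j)).totalDegree ≤ s j * M :=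
    fun j _ => (totalDegree_pow _ _).trans (Nat.mul_le_mul_left _ (hM j))
  refine (Finset.sum_le_sum h3).trans ?_
  rw [← Finset.sum_mul]
  refine Nat.mul_le_mul_right _ ?_
  have h4 := le_totalDegree hs
  rw [Finsupp.sum_fintype _ _ (fun i => rfl)] at h4
  exact h4

theorem t_ORD : S_ORD := by
  intro k _ t
  refine ⟨max (dg (t⁻¹ (X 0))) (dg (t⁻¹ (X 1))) * 1 * max (dg (t (X 0))) (dg (t (X 1))), ?_⟩
  intro b hb i
  have h1 : (t * b * t⁻¹) (X i) = t (b (t⁻¹ (X i))) := rfl
  rw [h1]
  refine (dg_map t (max (dg (t (X 0))) (dg (t (X 1)))) ?_ _).trans (Nat.mul_le_mul_right _ ?_)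
  · intro j
    fin_cases j
    · exact le_max_left _ _
    · exact le_max_right _ _
  refine (dg_map b 1 ?_ _).trans (Nat.mul_le_mul_right _ ?_)
  · obtain ⟨a, b', c, d, e, f, -, -, -, -, -, -, h0, h1⟩ := hb
    have key : ∀ a b' c : k, (C a * X 0 + C b' * X 1 + C c : MvPolynomial (Fin 2) k).totalDegree ≤ 1 := by
      intro a b' c
      refine (totalDegree_add _ _).trans (max_le ((totalDegree_add _ _).trans (max_le ?_ ?_)) ?_)
      · refine (totalDegree_mul _ _).trans ?_
        rw [totalDegree_C, totalDegree_X]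
      · refine (totalDegree_mul _ _).trans ?_
        rw [totalDegree_C, totalDegree_X]
      · rw [totalDegree_C]
        exact Nat.zero_le _
    intro j
    fin_cases j
    · change (b (X 0)).totalDegree ≤ 1
      rw [h0]
      exact key _ _ _
    · change (b (X 1)).totalDegree ≤ 1
      rw [h1]
      exact key _ _ _
  · fin_cases i
    · exact le_max_left _ _
    · exact le_max_right _ _

end Pool.Agent.T2h61.RF.ORD
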