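import Pool.Agent.T2h61.RF.Stm

set_option autoImplicit false

namespace Pool.Agent.T2h61.RF.ORG

open Pool.Agent.T2h61.RF Pool.Agent.T2h61.PL
open Pool.Agent.Y110.FJ (ClosedE)

section

variable {G : Type} [Group G] (A J : Subgroup G)

theorem act (g : G) (u v : (G ⧸ A) ⊕ (G ⧸ J)) (h : (CG A J).Adj u v) :
    (CG A J).Adj (g • u) (g • v) := by
  obtain ⟨x, h | h⟩ := h
  · obtain ⟨rfl, rfl⟩ := h
    exact ⟨g * x, Or.inl ⟨rfl, rfl⟩⟩
  · obtain ⟨rfl, rfl⟩ := h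
    exact ⟨g * x, Or.inr ⟨rfl, rfl⟩⟩

theorem stab_inl (x y : G) (h : y • (Sum.inl (x : G ⧸ A) : (G ⧸ A) ⊕ (G ⧸ J)) =
    Sum.inl (x : G ⧸ A)) : x⁻¹ * y * x ∈ A := by
  have h1 : (Sum.inl ((y * x : G) : G ⧸ A) : (G ⧸ A) ⊕ (G ⧸ J)) = Sum.inl (x : G ⧸ A) := h
  have h2 : (x : G ⧸ A) = ((y * x : G) : G ⧸ A) := (Sum.inl.inj h1).symm
  rw [QuotientGroup.eq] at h2
  rwa [mul_assoc]

theorem stab_inr (x y : G) (h : y • (Sum.inr (x : G ⧸ J) : (G ⧸ A) ⊕ (G ⧸ J)) =
    Sum.inr (x : G ⧸ J)) : x⁻¹ * y * x ∈ J := by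
  have h1 : (Sum.inr ((y * x : G) : G ⧸ J) : (G ⧸ A) ⊕ (G ⧸ J)) = Sum.inr (x : G ⧸ J) := h
  have h2 : (x : G ⧸ J) = ((y * x : G) : G ⧸ J) := (Sum.inr.inj h1).symm
  rw [QuotientGroup.eq] at h2
  rwa [mul_assoc]

end

/-- a subgroup which is conjugate into the preimage of a subgroup in the class -/
theorem conj {C : ∀ (G : Type) [Group G], Prop} (hC : ClosedE C) {E H : Type} [Group E] [Group H]
    (B T : Subgroup E) (hB : C B) (ι : H →* T) (hι : Function.Injective ι) (St : Subgroup H) (x : T)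
    (h : ∀ y ∈ St, x⁻¹ * ι y * x ∈ B.subgroupOf T) : C St := by
  refine hC.base.of_injective _ _
    { toFun := fun y => (⟨((x⁻¹ * ι (y : H) * x : T) : E), h y y.2⟩ : B)
      map_one' := by
        apply Subtype.ext
        simp
      map_mul' := by
        intro y z
        apply Subtype.ext
        simp [mul_assoc] } ?_ hB
  intro y z hyz
  have h1 : ((x⁻¹ * ι (y : H) * x : T) : E) = ((x⁻¹ * ι (z : H) * x : T) : E) :=
    congrArg (fun b : B => (b : E)) hyz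
  have h2 : x⁻¹ * ι (y : H) * x = x⁻¹ * ι (z : H) * x := Subtype.ext h1
  have h3 : ι (y : H) = ι (z : H) := mul_left_cancel (mul_right_cancel h2)
  exact Subtype.ext (hι h3)

theorem t_ORG : S_ORG := by
  intro hGRP hVA hVJ hGT hTREE hCON hDEG hORD hJET C hC hM k _ hGL
  have hT : (CG (AA (⊤ : Subfield k)) (JJ (⊤ : Subfield k))).IsTree :=
    hGT hTREE hCON hDEG hGRP k ⊤
  have hCA : C (affS (⊤ : Subfield k)) := by
    obtain ⟨f, hf⟩ := hVA hGRP k ⊤
    exact hC.base.of_injective _ _ f hf (hGL 3)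
  have hCJ : C (triS (⊤ : Subfield k)) :=
    (Pool.Agent.T2h60.CY.HQ.solv hC hM 3 _ (hVJ hGRP k ⊤)).self
  obtain ⟨ι, hι⟩ : ∃ ι : tameO k →* tame (⊤ : Subfield k), ι = Subgroup.inclusion inf_le_right :=
    ⟨_, rfl⟩
  have hιi : Function.Injective ι := by
    rw [hι]
    exact Subgroup.inclusion_injective _
  have hιc : ∀ y : tameO k, ((ι y : tame (⊤ : Subfield k)) : Au k) = (y : Au k) := by
    intro y
    rw [hι]
    rfl
  let _ : MulAction (tameO k) ((tame (⊤ : Subfield k) ⧸ AA (⊤ : Subfield k)) ⊕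
      (tame (⊤ : Subfield k) ⧸ JJ (⊤ : Subfield k))) := MulAction.compHom _ ι
  refine Pool.Agent.N509.TK.edges hC hT (fun g u v h => act _ _ (ι g) u v h) ?_ ?_
  · intro v
    rcases v with v | v
    · obtain ⟨x, rfl⟩ := QuotientGroup.mk_surjective v
      exact conj hC (affS (⊤ : Subfield k)) (tame ⊤) hCA ι hιi _ x fun y hy =>
        stab_inl (AA (⊤ : Subfield k)) (JJ ⊤) x (ι y) hy
    · obtain ⟨x, rfl⟩ := QuotientGroup.mk_surjective v
      exact conj hC (triS (⊤ : Subfield k)) (tame ⊤) hCJ ι hιi _ x fun y hy =>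
        stab_inr (AA (⊤ : Subfield k)) (JJ ⊤) x (ι y) hy
  · have key : ∀ g : tame (⊤ : Subfield k), ∃ (P : Type) (_ : Group P) (f : tameO k →* P), C P ∧
        ∀ h : tameO k, g⁻¹ * ι h * g ∈ AA (⊤ : Subfield k) → f h = 1 → h = 1 := by
      intro g
      obtain ⟨N, hN⟩ := hORD k (g : Au k)
      obtain ⟨V, _, _, _, f, hf⟩ := hJET k N
      refine ⟨(V →ₗ[k] V)ˣ, inferInstance,
        f.comp (Subgroup.inclusion (inf_le_left : tameO k ≤ fixO k)),
        Pool.Agent.T2h61.GT.C_lin hC hGL, ?_⟩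
      intro h hh h1
      have h2 : IsAff (⊤ : Subfield k) (((g⁻¹ * ι h * g : tame (⊤ : Subfield k)) : Au k)) :=
        (((hGRP k ⊤).1 _).1 (Subgroup.mem_subgroupOf.1 hh)).1
      have h3 : Subgroup.inclusion (inf_le_left : tameO k ≤ fixO k) h = 1 := by
        refine hf _ (fun i => ?_) h1
        have h4 := hN _ h2 i
        have h5 : (g : Au k) * ((g⁻¹ * ι h * g : tame (⊤ : Subfield k)) : Au k) * (g : Au k)⁻¹ =
            (h : Au k) := by
          rw [← hιc h]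
          push_cast
          group
        rw [h5] at h4
        exact h4
      exact Subgroup.inclusion_injective _ (h3.trans (map_one _).symm)
    intro u v huv
    obtain ⟨x, h | h⟩ := huv
    · obtain ⟨rfl, rfl⟩ := h
      obtain ⟨P, iP, f, hP, hf⟩ := key x
      exact ⟨P, iP, f, hP, fun h h1 _ h2 => hf h (stab_inl _ _ x (ι h) h1) h2⟩
    · obtain ⟨rfl, rfl⟩ := h
      obtain ⟨P, iP, f, hP, hf⟩ := key x
      exact ⟨P, iP, f, hP, fun h _ h1 h2 => hf h (stab_inl _ _ x (ι h) h1) h2⟩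

end Pool.Agent.T2h61.RF.ORG
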