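import Pool.Agent.T2h61.RF.Stm

/-! FRD (helper5): the degree function of the free algebra -/

set_option autoImplicit false

namespace Pool.Agent.T2h61.RF.FRD

section

variable {k X : Type} [Field k]

/-- the degree of an element of the monoid algebra -/
noncomputable def dm (a : MonoidAlgebra k (FreeMonoid X)) : ℕ :=
  a.coeff.support.sup FreeMonoid.length

theorem le_dm {a : MonoidAlgebra k (FreeMonoid X)} {w : FreeMonoid X} (h : w ∈ a.coeff.support) :
    w.length ≤ dm a := Finset.le_sup (f := FreeMonoid.length) h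

theorem dm_zero : dm (0 : MonoidAlgebra k (FreeMonoid X)) = 0 := by
  simp [dm]

theorem dm_add (a b : MonoidAlgebra k (FreeMonoid X)) : dm (a + b) ≤ max (dm a) (dm b) := by
  classical
  refine Finset.sup_le fun w hw => ?_
  have h : w ∈ a.coeff.support ∪ b.coeff.support := by
    rw [Finset.mem_union, Finsupp.mem_support_iff, Finsupp.mem_support_iff]
    rw [Finsupp.mem_support_iff] at hw
    by_contra hcon
    push Not at hcon
    apply hw
    simp [hcon.1, hcon.2]
  rcases Finset.mem_union.1 h with h | h
  · exact le_max_of_le_left (le_dm h)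
  · exact le_max_of_le_right (le_dm h)

theorem exists_top {a : MonoidAlgebra k (FreeMonoid X)} (ha : a ≠ 0) :
    ∃ w ∈ a.coeff.support, w.length = dm a := by
  have hne : a.coeff.support.Nonempty := by
    rw [Finsupp.support_nonempty_iff]
    intro h
    exact ha (MonoidAlgebra.coeff_eq_zero.1 h)
  obtain ⟨w, hw, h⟩ := Finset.exists_mem_eq_sup _ hne FreeMonoid.length
  exact ⟨w, hw, h.symm⟩

theorem dm_mul (a b : MonoidAlgebra k (FreeMonoid X)) (ha : a ≠ 0) (hb : b ≠ 0) :
    dm (a * b) = dm a + dm b := by
  classical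
  apply le_antisymm
  · refine Finset.sup_le fun w hw => ?_
    obtain ⟨u, hu, v, hv, rfl⟩ := Finset.mem_mul.1 (MonoidAlgebra.support_coeff_mul_subset a b hw)
    rw [FreeMonoid.length_mul]
    exact Nat.add_le_add (le_dm hu) (le_dm hv)
  · obtain ⟨u, hu, hu'⟩ := exists_top ha
    obtain ⟨v, hv, hv'⟩ := exists_top hb
    have hun : UniqueMul a.coeff.support b.coeff.support u v := by
      intro u' v' hu1 hv1 h
      have h1 := le_dm hu1
      have h2 := le_dm hv1
      have h3 : u'.length + v'.length = u.length + v.length := by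
        rw [← FreeMonoid.length_mul, ← FreeMonoid.length_mul, h]
      have h4 : u'.length = u.length := by omega
      have h5 : FreeMonoid.toList u' ++ FreeMonoid.toList v' =
          FreeMonoid.toList u ++ FreeMonoid.toList v := congrArg FreeMonoid.toList h
      obtain ⟨h6, h7⟩ := List.append_inj h5 h4
      exact ⟨FreeMonoid.toList.injective h6, FreeMonoid.toList.injective h7⟩
    have h1 := MonoidAlgebra.coeff_mul_mul_of_uniqueMul hun
    have h2 : u * v ∈ (a * b).coeff.support := by
      rw [Finsupp.mem_support_iff, h1]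
      exact mul_ne_zero (Finsupp.mem_support_iff.1 hu) (Finsupp.mem_support_iff.1 hv)
    have h3 := le_dm h2
    rw [FreeMonoid.length_mul, hu', hv'] at h3
    exact h3

theorem dm_eq_zero {a : MonoidAlgebra k (FreeMonoid X)} (h : dm a = 0) :
    a = algebraMap k _ (a.coeff 1) := by
  classical
  have h0 : ∀ w, w ≠ 1 → a.coeff w = 0 := by
    intro w hw
    by_contra hcon
    have h1 := le_dm (Finsupp.mem_support_iff.2 hcon)
    rw [h, Nat.le_zero] at h1
    exact hw (FreeMonoid.length_eq_zero.1 h1)
  ext w
  by_cases hw : w = 1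
  · subst hw
    simp
  · rw [h0 w hw]
    simp [Ne.symm hw]

end

theorem t_FRD : S_FRD := by
  intro k X _
  refine ⟨inferInstance, fun a => dm (FreeAlgebra.equivMonoidAlgebraFreeMonoid a), ⟨?_, ?_, ?_⟩, ?_⟩
  · rw [map_zero]
    exact dm_zero
  · intro a b
    rw [map_add]
    exact dm_add _ _
  · intro a b ha hb
    rw [map_mul]
    exact dm_mul _ _ ((map_ne_zero_iff _ (AlgEquiv.injective _)).2 ha)
      ((map_ne_zero_iff _ (AlgEquiv.injective _)).2 hb)
  · intro a ha
    have h1 := dm_eq_zero ha
    rw [Submodule.mem_span_singleton]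
    obtain ⟨c, hc⟩ : ∃ c, c = (FreeAlgebra.equivMonoidAlgebraFreeMonoid a).coeff 1 := ⟨_, rfl⟩
    rw [← hc] at h1
    refine ⟨c, ?_⟩
    apply (FreeAlgebra.equivMonoidAlgebraFreeMonoid (R := k) (X := X)).injective
    rw [h1, map_smul, map_one, Algebra.algebraMap_eq_smul_one]

end Pool.Agent.T2h61.RF.FRD
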