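import Pool.Agent.T2h61.RF.Stm
import Pool.Agent.T2h61.RF.T_FRD

/-!
# GEF: the theorem of Cohn on invertible matrices of degree two over free algebras
-/

set_option autoImplicit false

namespace Pool.Agent.T2h61.RF.GEF

open Pool.Agent.T2h61.RF FRD

section alg

variable {k X : Type} [Field k]

/-- the coefficient of the product of two words which are at least as long as the degrees -/
theorem top_coeff {f g : MonoidAlgebra k (FreeMonoid X)} {u v : FreeMonoid X}
    (hf : dm f ≤ u.length) (hg : dm g ≤ v.length) :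
    (f * g).coeff (u * v) = f.coeff u * g.coeff v := by
  apply MonoidAlgebra.coeff_mul_mul_of_uniqueMul
  intro u' v' hu1 hv1 h
  have h1 := le_dm hu1
  have h2 := le_dm hv1
  have h3 : u'.length + v'.length = u.length + v.length := by
    rw [← FreeMonoid.length_mul, ← FreeMonoid.length_mul, h]
  have h4 : u'.length = u.length := by omega
  have h5 : FreeMonoid.toList u' ++ FreeMonoid.toList v' =
      FreeMonoid.toList u ++ FreeMonoid.toList v := congrArg FreeMonoid.toList h
  obtain ⟨h6, h7⟩ := List.append_inj h5 h4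
  exact ⟨FreeMonoid.toList.injective h6, FreeMonoid.toList.injective h7⟩

theorem coeff_big {f : MonoidAlgebra k (FreeMonoid X)} {v : FreeMonoid X} (h : dm f < v.length) :
    f.coeff v = 0 := by
  by_contra hcon
  have := le_dm (Finsupp.mem_support_iff.2 hcon)
  omega

/-- splitting of a word -/
theorem split (v : FreeMonoid X) (n m : ℕ) (h : v.length = n + m) :
    ∃ u u' : FreeMonoid X, v = u * u' ∧ u.length = n ∧ u'.length = m := by
  refine ⟨FreeMonoid.ofList ((FreeMonoid.toList v).take n),
    FreeMonoid.ofList ((FreeMonoid.toList v).drop n), ?_, ?_, ?_⟩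
  · apply FreeMonoid.toList.injective
    show FreeMonoid.toList v = (FreeMonoid.toList v).take n ++ (FreeMonoid.toList v).drop n
    rw [List.take_append_drop]
  · show ((FreeMonoid.toList v).take n).length = n
    rw [List.length_take]
    have : (FreeMonoid.toList v).length = n + m := h
    omega
  · show ((FreeMonoid.toList v).drop n).length = m
    rw [List.length_drop]
    have : (FreeMonoid.toList v).length = n + m := h
    omega

/-- **The weak algorithm.** -/
theorem weak {a c p q : MonoidAlgebra k (FreeMonoid X)} (ha : a ≠ 0) (hc : c ≠ 0) (hp : p ≠ 0)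
    (hq : q ≠ 0) (h : p * a + q * c = 0) (hd : dm c ≤ dm a) :
    ∃ r, a - r * c = 0 ∨ dm (a - r * c) < dm a := by
  classical
  obtain ⟨w, hw, hw'⟩ := exists_top hp
  have hdeg : dm p + dm a = dm q + dm c := by
    rw [← dm_mul p a hp ha, ← dm_mul q c hq hc, eq_neg_of_add_eq_zero_left h]
    unfold dm
    rw [MonoidAlgebra.coeff_neg, Finsupp.support_neg]
  obtain ⟨t, ht⟩ : ∃ t, dm a = dm c + t := ⟨dm a - dm c, by omega⟩
  have hlam : p.coeff w ≠ 0 := Finsupp.mem_support_iff.1 hw
  have hinj : Set.InjOn (fun u : FreeMonoid X => w * u)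
      ((fun u : FreeMonoid X => w * u) ⁻¹' (q.coeff.support : Set (FreeMonoid X))) :=
    fun x _ y _ hxy => mul_left_cancel hxy
  obtain ⟨r, hr⟩ : ∃ r : MonoidAlgebra k (FreeMonoid X), ∀ u : FreeMonoid X,
      r.coeff u = if u.length = t then -(p.coeff w)⁻¹ * q.coeff (w * u) else 0 := by
    refine ⟨.ofCoeff (-(p.coeff w)⁻¹ • ((q.coeff.comapDomain (fun u => w * u) hinj).filter
      fun u => u.length = t)), fun u => ?_⟩
    rw [MonoidAlgebra.coeff_ofCoeff, Finsupp.smul_apply, smul_eq_mul, Finsupp.filter_apply,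
      Finsupp.comapDomain_apply]
    by_cases hu : u.length = t
    · rw [if_pos hu, if_pos hu]
    · rw [if_neg hu, if_neg hu, mul_zero]
  have hrd : dm r ≤ t := by
    refine Finset.sup_le fun u hu => ?_
    rw [Finsupp.mem_support_iff, hr] at hu
    by_contra hcon
    apply hu
    rw [if_neg (by omega)]
  have hkey : ∀ v : FreeMonoid X, dm a ≤ v.length → (a - r * c).coeff v = 0 := by
    intro v hv
    rw [MonoidAlgebra.coeff_sub, Finsupp.sub_apply]
    obtain ⟨u, v2, rfl, hu, hv2⟩ := split v t (v.length - t) (by omega)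
    rw [FreeMonoid.length_mul] at hv
    have hv2' : dm c ≤ v2.length := by omega
    rw [top_coeff (by omega) hv2']
    have e1 : (p * a).coeff (w * (u * v2)) = p.coeff w * a.coeff (u * v2) :=
      top_coeff (by omega) (by rw [FreeMonoid.length_mul]; exact hv)
    have e2 : (q * c).coeff ((w * u) * v2) = q.coeff (w * u) * c.coeff v2 := by
      apply top_coeff
      · rw [FreeMonoid.length_mul]
        omega
      · exact hv2'
    have e3 := congrArg (fun f : MonoidAlgebra k (FreeMonoid X) => f.coeff (w * (u * v2))) h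
    simp only [MonoidAlgebra.coeff_add, Finsupp.add_apply, MonoidAlgebra.coeff_zero,
      Finsupp.zero_apply] at e3
    rw [e1, ← mul_assoc w u v2, e2] at e3
    rw [hr, if_pos hu]
    field_simp
    linear_combination e3
  refine ⟨r, ?_⟩
  by_cases h0 : a - r * c = 0
  · exact Or.inl h0
  · right
    obtain ⟨v, hv, hv'⟩ := exists_top h0
    by_contra hcon
    exact (Finsupp.mem_support_iff.1 hv) (hkey v (by omega))

end alg

section grp

variable {R : Type} [Ring R]

/-- elementary matrices -/
def up (x : R) : GLt R :=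
  ⟨!![1, x; 0, 1], !![1, -x; 0, 1], by
    rw [Matrix.mul_fin_two, Matrix.one_fin_two]
    simp, by
    rw [Matrix.mul_fin_two, Matrix.one_fin_two]
    simp⟩

/-- elementary matrices -/
def lo (x : R) : GLt R :=
  ⟨!![1, 0; x, 1], !![1, 0; -x, 1], by
    rw [Matrix.mul_fin_two, Matrix.one_fin_two]
    simp, by
    rw [Matrix.mul_fin_two, Matrix.one_fin_two]
    simp⟩

theorem up_mem (x : R) : up x ∈ GE R := Subgroup.subset_closure (Or.inl ⟨rfl, rfl⟩)

theorem lo_mem (x : R) : lo x ∈ GE R := Subgroup.subset_closure (Or.inr ⟨rfl, rfl⟩)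

theorem up_mul (x : R) (g : GLt R) :
    (up x * g).val 0 0 = g.val 0 0 + x * g.val 1 0 ∧ (up x * g).val 1 0 = g.val 1 0 := by
  constructor
  · rw [Units.val_mul, Matrix.mul_apply, Fin.sum_univ_two]
    show 1 * g.val 0 0 + x * g.val 1 0 = _
    rw [one_mul]
  · rw [Units.val_mul, Matrix.mul_apply, Fin.sum_univ_two]
    show 0 * g.val 0 0 + 1 * g.val 1 0 = _
    rw [one_mul, zero_mul, zero_add]

theorem lo_mul (x : R) (g : GLt R) :
    (lo x * g).val 0 0 = g.val 0 0 ∧ (lo x * g).val 1 0 = x * g.val 0 0 + g.val 1 0 := by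
  constructor
  · rw [Units.val_mul, Matrix.mul_apply, Fin.sum_univ_two]
    show 1 * g.val 0 0 + 0 * g.val 1 0 = _
    rw [one_mul, zero_mul, add_zero]
  · rw [Units.val_mul, Matrix.mul_apply, Fin.sum_univ_two]
    show x * g.val 0 0 + 1 * g.val 1 0 = _
    rw [one_mul]

theorem inv_mul_apply (g : GLt R) (i j : Fin 2) :
    (g⁻¹ : GLt R).val i 0 * g.val 0 j + (g⁻¹ : GLt R).val i 1 * g.val 1 j =
      (1 : Matrix (Fin 2) (Fin 2) R) i j := by
  have h : (g⁻¹ : GLt R).val * g.val = 1 := by
    rw [← Units.val_mul, inv_mul_cancel, Units.val_one]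
  have h1 := congrFun (congrFun h i) j
  rw [Matrix.mul_apply, Fin.sum_univ_two] at h1
  exact h1

theorem case_c [IsDomain R] (g : GLt R) (hc : g.val 1 0 = 0) : g ∈ GE R := by
  have h1 := inv_mul_apply g 1 0
  have h2 := inv_mul_apply g 0 0
  rw [hc, mul_zero, add_zero, Matrix.one_apply_ne (by decide)] at h1
  rw [hc, mul_zero, add_zero, Matrix.one_apply_eq] at h2
  have ha : g.val 0 0 ≠ 0 := by
    intro h0
    rw [h0, mul_zero] at h2
    exact zero_ne_one h2
  exact Subgroup.subset_closure (Or.inl ⟨hc, (mul_eq_zero.1 h1).resolve_right ha⟩)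

theorem case_a [IsDomain R] (g : GLt R) (ha : g.val 0 0 = 0) : g ∈ GE R := by
  have h1 : lo (-1) * (up 1 * g) ∈ GE R := by
    apply case_c
    rw [(lo_mul _ _).2, (up_mul _ _).1, (up_mul _ _).2, ha]
    simp
  exact ((GE R).mul_mem_cancel_left (up_mem 1)).1 (((GE R).mul_mem_cancel_left (lo_mem (-1))).1 h1)

/-- the weak algorithm implies the generation -/
theorem gen_of [IsDomain R] (d : R → ℕ)
    (hwk : ∀ a c p q : R, a ≠ 0 → c ≠ 0 → p ≠ 0 → q ≠ 0 → p * a + q * c = 0 → d c ≤ d a →
      ∃ r, a - r * c = 0 ∨ d (a - r * c) < d a) (g : GLt R) : g ∈ GE R := by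
  obtain ⟨N, hN⟩ : ∃ N, d (g.val 0 0) + d (g.val 1 0) ≤ N := ⟨_, le_rfl⟩
  induction N using Nat.strong_induction_on generalizing g with
  | _ N ih =>
    by_cases ha : g.val 0 0 = 0
    · exact case_a g ha
    by_cases hc : g.val 1 0 = 0
    · exact case_c g hc
    have h1 := inv_mul_apply g 1 0
    have h2 := inv_mul_apply g 1 1
    rw [Matrix.one_apply_ne (by decide)] at h1
    rw [Matrix.one_apply_eq] at h2
    have hp : (g⁻¹ : GLt R).val 1 0 ≠ 0 := by
      intro h0
      rw [h0, zero_mul, zero_add] at h1 h2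
      rw [(mul_eq_zero.1 h1).resolve_right hc, zero_mul] at h2
      exact zero_ne_one h2
    have hq : (g⁻¹ : GLt R).val 1 1 ≠ 0 := by
      intro h0
      rw [h0, zero_mul, add_zero] at h1 h2
      rw [(mul_eq_zero.1 h1).resolve_right ha, zero_mul] at h2
      exact zero_ne_one h2
    rcases le_total (d (g.val 1 0)) (d (g.val 0 0)) with hd | hd
    · obtain ⟨r, hr⟩ := hwk _ _ _ _ ha hc hp hq h1 hd
      have e1 := up_mul (-r) g
      have e2 : g.val 0 0 + -r * g.val 1 0 = g.val 0 0 - r * g.val 1 0 := by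
        rw [neg_mul, sub_eq_add_neg]
      have h3 : up (-r) * g ∈ GE R := by
        rcases hr with hr | hr
        · exact case_a _ (by rw [e1.1, e2, hr])
        · exact ih (d (g.val 0 0 - r * g.val 1 0) + d (g.val 1 0)) (by omega) _
            (by rw [e1.1, e1.2, e2])
      exact ((GE R).mul_mem_cancel_left (up_mem (-r))).1 h3
    · obtain ⟨r, hr⟩ := hwk _ _ _ _ hc ha hq hp (by rw [add_comm]; exact h1) hd
      have e1 := lo_mul (-r) g
      have e2 : -r * g.val 0 0 + g.val 1 0 = g.val 1 0 - r * g.val 0 0 := by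
        rw [neg_mul, neg_add_eq_sub]
      have h3 : lo (-r) * g ∈ GE R := by
        rcases hr with hr | hr
        · exact case_c _ (by rw [e1.2, e2, hr])
        · exact ih (d (g.val 0 0) + d (g.val 1 0 - r * g.val 0 0)) (by omega) _
            (by rw [e1.1, e1.2, e2])
      exact ((GE R).mul_mem_cancel_left (lo_mem (-r))).1 h3

end grp

theorem t_GEF : ∀ (k X : Type) [Field k], GE (FreeAlgebra k X) = ⊤ := by
  intro k X _
  have : IsDomain (FreeAlgebra k X) := inferInstance
  rw [eq_top_iff]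
  intro g _
  refine gen_of (fun a => dm (FreeAlgebra.equivMonoidAlgebraFreeMonoid a)) ?_ g
  intro a c p q ha hc hp hq h hd
  have hne : ∀ x : FreeAlgebra k X, x ≠ 0 →
      FreeAlgebra.equivMonoidAlgebraFreeMonoid (R := k) x ≠ 0 := fun x hx =>
    (map_ne_zero_iff _ (AlgEquiv.injective _)).2 hx
  obtain ⟨r, hr⟩ := weak (hne a ha) (hne c hc) (hne p hp) (hne q hq)
    (by rw [← map_mul, ← map_mul, ← map_add, h, map_zero]) hd
  obtain ⟨r, rfl⟩ := (FreeAlgebra.equivMonoidAlgebraFreeMonoid (R := k) (X := X)).surjective r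
  rw [← map_mul, ← map_sub] at hr
  refine ⟨r, hr.imp (fun h0 => ?_) id⟩
  exact (map_eq_zero_iff _ (AlgEquiv.injective _)).1 h0

end Pool.Agent.T2h61.RF.GEF
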