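import Pool.Agent.T2h61.RF.Stm

/-!
# Project RF: task FRR
-/

set_option autoImplicit false

namespace Pool.Agent.T2h61.RF.FRR

open Classical in
/-- the matrix of a letter -/
noncomputable def mx (k : Type) {X : Type} [Field k] (V : Finset (List X)) (x : X) : Matrix V V k :=
  fun a b => if (a : List X) = x :: (b : List X) then 1 else 0

theorem mx_pos (k : Type) {X : Type} [Field k] (V : Finset (List X)) (x : X) (a b : V)
    (h : (a : List X) = x :: (b : List X)) : mx k V x a b = 1 := if_pos h

theorem mx_neg (k : Type) {X : Type} [Field k] (V : Finset (List X)) (x : X) (a b : V)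
    (h : ¬ (a : List X) = x :: (b : List X)) : mx k V x a b = 0 := if_neg h

/-- the representation of the free monoid -/
noncomputable def rp (k : Type) {X : Type} [Field k] [DecidableEq (List X)] (V : Finset (List X)) :
    FreeMonoid X →* Matrix V V k :=
  FreeMonoid.lift fun x => mx k V x

theorem rp_apply (k : Type) {X : Type} [Field k] [DecidableEq (List X)] (V : Finset (List X))
    (hV : ∀ (x : X) (w : List X), x :: w ∈ V → w ∈ V) (u : List X) (a b : V) :
    rp k V (FreeMonoid.ofList u) a b = if (a : List X) = u ++ (b : List X) then 1 else 0 := by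
  classical
  induction u generalizing a with
  | nil =>
    have h : rp k V (FreeMonoid.ofList ([] : List X)) = 1 := map_one _
    rw [h, Matrix.one_apply, List.nil_append]
    by_cases h1 : a = b
    · rw [if_pos h1, if_pos (by rw [h1])]
    · rw [if_neg h1, if_neg fun h2 => h1 (Subtype.ext h2)]
  | cons x u ih =>
    have h : rp k V (FreeMonoid.ofList (x :: u)) = mx k V x * rp k V (FreeMonoid.ofList u) := by
      rw [FreeMonoid.ofList_cons, map_mul]
      congr 1
    rw [h, Matrix.mul_apply]
    by_cases h1 : (a : List X) = (x :: u) ++ (b : List X)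
    · rw [if_pos h1]
      have hm : u ++ (b : List X) ∈ V := hV x _ (by rw [← List.cons_append, ← h1]; exact a.2)
      rw [Finset.sum_eq_single (⟨u ++ (b : List X), hm⟩ : V)]
      · rw [ih, if_pos rfl, mul_one]
        exact mx_pos k V x a _ (by rw [h1, List.cons_append])
      · intro v _ hv
        rw [ih]
        have : ¬ ((v : List X) = u ++ (b : List X)) := fun h2 => hv (Subtype.ext h2)
        rw [if_neg this, mul_zero]
      · intro h2
        exact absurd (Finset.mem_univ _) h2
    · rw [if_neg h1]
      refine Finset.sum_eq_zero fun v _ => ?_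
      rw [ih]
      by_cases h2 : (v : List X) = u ++ (b : List X)
      · have h3 : mx k V x a v = 0 :=
          mx_neg k V x a v fun h4 => h1 (by rw [h4, h2, List.cons_append])
        rw [h3, zero_mul]
      · rw [if_neg h2, mul_zero]

open Classical in
theorem t_FRR : S_FRR := by
  intro k X _ W hW
  set e : FreeAlgebra k X ≃ₐ[k] MonoidAlgebra k (FreeMonoid X) := FreeAlgebra.equivMonoidAlgebraFreeMonoid with he
  obtain ⟨t, ht⟩ := (Submodule.fg_iff_finiteDimensional W).2 hW
  set S : Finset (List X) := t.biUnion fun a => (e a).coeff.support.image FreeMonoid.toList with hS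
  set V : Finset (List X) := insert [] (S.biUnion fun s => s.tails.toFinset) with hVd
  have hV : ∀ (x : X) (w : List X), x :: w ∈ V → w ∈ V := by
    intro x w h
    rw [hVd, Finset.mem_insert, Finset.mem_biUnion] at h ⊢
    rcases h with h | ⟨s, hs, h⟩
    · exact absurd h (List.cons_ne_nil _ _)
    · right
      refine ⟨s, hs, ?_⟩
      rw [List.mem_toFinset, List.mem_tails] at h ⊢
      exact (List.suffix_cons x w).trans h
  have hSV : ∀ s ∈ S, s ∈ V := by
    intro s hs
    rw [hVd, Finset.mem_insert, Finset.mem_biUnion]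
    right
    exact ⟨s, hs, by rw [List.mem_toFinset, List.mem_tails]⟩
  have hnil : ([] : List X) ∈ V := Finset.mem_insert_self _ _
  have hsup : ∀ a ∈ W, ∀ w : FreeMonoid X, w ∉ S.image FreeMonoid.ofList → (e a).coeff w = 0 := by
    intro a ha w hw
    rw [← ht] at ha
    induction ha using Submodule.span_induction with
    | mem a ha =>
      by_contra h
      refine hw (Finset.mem_image.2 ⟨FreeMonoid.toList w, ?_, rfl⟩)
      exact Finset.mem_biUnion.2 ⟨a, ha, Finset.mem_image.2 ⟨w, Finsupp.mem_support_iff.2 h, rfl⟩⟩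
    | zero => simp
    | add a b _ _ h1 h2 => simp [h1, h2]
    | smul c a _ h1 => simp [h1]
  set Φ : MonoidAlgebra k (FreeMonoid X) →ₐ[k] Matrix V V k := MonoidAlgebra.lift k (Matrix V V k) (FreeMonoid X) (rp k V)
    with hΦ
  have hval : ∀ (b : MonoidAlgebra k (FreeMonoid X)) (s : List X) (hs : s ∈ V),
      Φ b ⟨s, hs⟩ ⟨[], hnil⟩ = b.coeff (FreeMonoid.ofList s) := by
    intro b s hs
    rw [hΦ, MonoidAlgebra.lift_apply, Finsupp.sum, Matrix.sum_apply]
    have : ∀ w ∈ b.coeff.support, (b.coeff w • rp k V w) ⟨s, hs⟩ ⟨[], hnil⟩ =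
        if w = FreeMonoid.ofList s then b.coeff w else 0 := by
      intro w _
      rw [Matrix.smul_apply]
      have h1 := rp_apply k V hV (FreeMonoid.toList w) ⟨s, hs⟩ ⟨[], hnil⟩
      rw [FreeMonoid.ofList_toList, List.append_nil] at h1
      rw [h1]
      by_cases h2 : w = FreeMonoid.ofList s
      · rw [if_pos h2, if_pos (by rw [h2]; rfl), smul_eq_mul, mul_one]
      · rw [if_neg h2, if_neg fun h3 => h2 (by
          show w = FreeMonoid.ofList s
          have h4 : s = FreeMonoid.toList w := h3
          rw [h4, FreeMonoid.ofList_toList]), smul_zero]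
    rw [Finset.sum_congr rfl this, Finset.sum_ite_eq']
    by_cases h3 : FreeMonoid.ofList s ∈ b.coeff.support
    · rw [if_pos h3]
    · rw [if_neg h3]
      exact (Finsupp.notMem_support_iff.1 h3).symm
  refine ⟨Fintype.card V, ((Matrix.reindexAlgEquiv k k (Fintype.equivFin V)).toAlgHom.comp Φ).comp e.toAlgHom,
    fun a ha h0 => ?_⟩
  have h1 : Φ (e a) = 0 := by
    apply (Matrix.reindexAlgEquiv k k (Fintype.equivFin V)).injective
    rw [map_zero]
    exact h0
  have h2 : e a = 0 := by
    ext w
    by_cases hw : w ∈ S.image FreeMonoid.ofList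
    · obtain ⟨s, hs, rfl⟩ := Finset.mem_image.1 hw
      rw [← hval (e a) s (hSV s hs), h1]
      rfl
    · rw [hsup a ha w hw]
      rfl
  exact e.injective (h2.trans (map_zero e).symm)

end Pool.Agent.T2h61.RF.FRR
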