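import Pool.Agent.T2h61.RF.Stm

/-! Project RF (owner helper61), task GEN. -/

set_option autoImplicit false

namespace Pool.Agent.T2h61.RF.GEN

open Pool.Agent.T2h61.RF

variable {R : Type} [Ring R]

/-- `(1 x; 0 1)` -/
def up (x : R) : GLt R where
  val := !![1, x; 0, 1]
  inv := !![1, -x; 0, 1]
  val_inv := by
    ext i j
    fin_cases i <;> fin_cases j <;> simp [Matrix.mul_apply, Fin.sum_univ_two]
  inv_val := by
    ext i j
    fin_cases i <;> fin_cases j <;> simp [Matrix.mul_apply, Fin.sum_univ_two]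

/-- `(1 0; x 1)` -/
def lo (x : R) : GLt R where
  val := !![1, 0; x, 1]
  inv := !![1, 0; -x, 1]
  val_inv := by
    ext i j
    fin_cases i <;> fin_cases j <;> simp [Matrix.mul_apply, Fin.sum_univ_two]
  inv_val := by
    ext i j
    fin_cases i <;> fin_cases j <;> simp [Matrix.mul_apply, Fin.sum_univ_two]

/-- `(0 1; 1 0)` -/
def sw : GLt R where
  val := !![0, 1; 1, 0]
  inv := !![0, 1; 1, 0]
  val_inv := by
    ext i j
    fin_cases i <;> fin_cases j <;> simp [Matrix.mul_apply, Fin.sum_univ_two]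
  inv_val := by
    ext i j
    fin_cases i <;> fin_cases j <;> simp [Matrix.mul_apply, Fin.sum_univ_two]

theorem up_mem (x : R) : up x ∈ GE R :=
  Subgroup.subset_closure (Or.inl ⟨rfl, rfl⟩)

theorem lo_mem (x : R) : lo x ∈ GE R :=
  Subgroup.subset_closure (Or.inr ⟨rfl, rfl⟩)

theorem upper_mem [IsDomain R] {g : GLt R} (h : (g : Matrix (Fin 2) (Fin 2) R) 1 0 = 0) :
    g ∈ GE R := by
  refine Subgroup.subset_closure (Or.inl ⟨h, ?_⟩)
  have h1 : ((g : Matrix (Fin 2) (Fin 2) R) * (g⁻¹ : GLt R).val) = 1 := g.mul_inv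
  have h2 := congrFun (congrFun h1 1) 0
  have h3 := congrFun (congrFun h1 1) 1
  rw [Matrix.mul_apply, Fin.sum_univ_two, h, zero_mul, zero_add, Matrix.one_apply_ne (by decide)] at h2
  rw [Matrix.mul_apply, Fin.sum_univ_two, h, zero_mul, zero_add, Matrix.one_apply_eq] at h3
  rcases mul_eq_zero.1 h2 with h4 | h4
  · rw [h4, zero_mul] at h3
    exact absurd h3 zero_ne_one
  · exact h4

theorem t_GEN : S_GEN := by
  intro hM R _ _ d hd hu
  have hB : B0 R ≤ GE R := Subgroup.closure_mono Set.subset_union_left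
  have hA : A0 d ≤ GE R := by
    intro g hg
    have h1 := ((hM R d hd).1 g).1 hg
    by_cases hc : (g : Matrix (Fin 2) (Fin 2) R) 1 0 = 0
    · exact upper_mem hc
    · obtain ⟨c, hc1⟩ := hu _ hc (h1 1 0).1
      obtain ⟨x, hx⟩ : ∃ x : R, x = (1 - (g : Matrix (Fin 2) (Fin 2) R) 0 0) * (c⁻¹ : Rˣ).val :=
        ⟨_, rfl⟩
      have h2 : ((lo (-(c : R)) * up x * g : GLt R) : Matrix (Fin 2) (Fin 2) R) 1 0 = 0 := by
        rw [Units.val_mul, Units.val_mul, Matrix.mul_apply, Fin.sum_univ_two, Matrix.mul_apply,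
          Fin.sum_univ_two, Matrix.mul_apply, Fin.sum_univ_two, ← hc1]
        show (-(c : R) * 1 + 1 * 0) * (g : Matrix (Fin 2) (Fin 2) R) 0 0 +
          (-(c : R) * x + 1 * 1) * (c : R) = 0
        rw [hx]
        have h3 : (-(c : R) * ((1 - (g : Matrix (Fin 2) (Fin 2) R) 0 0) * (c⁻¹ : Rˣ).val) + 1 * 1) *
            (c : R) = -(c : R) * (1 - (g : Matrix (Fin 2) (Fin 2) R) 0 0) *
              ((c⁻¹ : Rˣ).val * (c : R)) + c := by
          noncomm_ring
        rw [h3, Units.inv_mul]
        noncomm_ring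
      have h3 := upper_mem h2
      exact (Subgroup.mul_mem_cancel_left _ (Subgroup.mul_mem _ (lo_mem _) (up_mem _))).1 h3
  have hG : A0 d ⊔ B0 R = GE R := by
    refine le_antisymm (sup_le hA hB) ?_
    unfold GE
    rw [Subgroup.closure_le]
    rintro g (hg | hg)
    · exact (le_sup_right : B0 R ≤ A0 d ⊔ B0 R) (Subgroup.subset_closure hg)
    · have hd1 : d 1 = 0 := by
        have h := hd.mul 1 1 one_ne_zero one_ne_zero
        rw [mul_one] at h
        omega
      have hw : (sw : GLt R) ∈ A0 d := by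
        refine Subgroup.subset_closure fun i j => ?_
        have h4 : d ((!![0, 1; 1, 0] : Matrix (Fin 2) (Fin 2) R) i j) = 0 := by
          fin_cases i <;> fin_cases j
          · exact hd.zero
          · exact hd1
          · exact hd1
          · exact hd.zero
        exact ⟨h4, h4⟩
      have hww : (sw : GLt R) * sw = 1 := Units.ext (sw : GLt R).val_inv
      have key : ∀ M : Matrix (Fin 2) (Fin 2) R,
          ((!![0, 1; 1, 0] : Matrix (Fin 2) (Fin 2) R) * M * (!![0, 1; 1, 0] : Matrix (Fin 2) (Fin 2) R) :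
            Matrix (Fin 2) (Fin 2) R) 1 0 = M 0 1 := by
        intro M
        rw [Matrix.mul_apply, Fin.sum_univ_two, Matrix.mul_apply, Fin.sum_univ_two,
          Matrix.mul_apply, Fin.sum_univ_two]
        show (1 * M 0 0 + 0 * M 1 0) * 0 + (1 * M 0 1 + 0 * M 1 1) * 1 = M 0 1
        rw [mul_zero, zero_mul, zero_add, add_zero, one_mul, mul_one]
      have h5 : (sw * g * sw : GLt R) ∈ B0 R := by
        refine Subgroup.subset_closure ⟨?_, ?_⟩
        · have h6 := key (g : Matrix (Fin 2) (Fin 2) R)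
          rw [hg.1] at h6
          exact h6
        · have h6 := key (g⁻¹ : GLt R).val
          rw [hg.2] at h6
          rw [mul_inv_rev, mul_inv_rev, ← mul_assoc]
          exact h6
      have h7 : g = sw * (sw * g * sw) * sw := by
        have h8 : sw * (sw * g * sw) * sw = (sw * sw) * g * (sw * sw) := by
          simp only [mul_assoc]
        rw [h8, hww, one_mul, mul_one]
      rw [h7]
      exact Subgroup.mul_mem _ (Subgroup.mul_mem _ ((le_sup_left : A0 d ≤ A0 d ⊔ B0 R) hw)
        ((le_sup_right : B0 R ≤ A0 d ⊔ B0 R) h5)) ((le_sup_left : A0 d ≤ A0 d ⊔ B0 R) hw)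
  refine ⟨hG, ?_⟩
  unfold AG BG
  rw [← Subgroup.subgroupOf_sup hA hB, hG, Subgroup.subgroupOf_self]

end Pool.Agent.T2h61.RF.GEN
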