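import Pool.Agent.T2h61.RF.Stm

/-!
# HT: the coset graph of `GE_2(R)` is a tree (helper75)
-/

set_option autoImplicit false

namespace Pool.Agent.T2h61.RF.HT

open Pool.Agent.T2h61.PL Pool.Agent.T2h61.RF

section deg

variable {R : Type} [Ring R] [IsDomain R] {d : R → ℕ}

theorem d_one (hd : Dg R d) : d 1 = 0 := by
  have := hd.mul 1 1 one_ne_zero one_ne_zero
  rw [mul_one] at this; omega

theorem d_neg (hd : Dg R d) (a : R) : d (-a) = d a := by
  have h1 : d (-1) = 0 := by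
    have h := hd.mul (-1) (-1) (neg_ne_zero.2 one_ne_zero) (neg_ne_zero.2 one_ne_zero)
    rw [neg_one_mul, neg_neg, d_one hd] at h; omega
  by_cases ha : a = 0
  · simp [ha]
  · have h := hd.mul (-1) a (neg_ne_zero.2 one_ne_zero) ha
    rw [neg_one_mul, h1] at h; omega

theorem d_mul_le (hd : Dg R d) (a b : R) : d (a * b) ≤ d a + d b := by
  by_cases ha : a = 0
  · simp [ha, hd.zero]
  by_cases hb : b = 0
  · simp [hb, hd.zero]
  exact (hd.mul a b ha hb).le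

theorem d_mul_right (hd : Dg R d) {b : R} (hb : b ≠ 0) (hb0 : d b = 0) (a : R) : d (a * b) = d a := by
  by_cases ha : a = 0
  · simp [ha]
  rw [hd.mul a b ha hb, hb0]; rfl

theorem d_mul_left (hd : Dg R d) {b : R} (hb : b ≠ 0) (hb0 : d b = 0) (a : R) : d (b * a) = d a := by
  by_cases ha : a = 0
  · simp [ha]
  rw [hd.mul b a hb ha, hb0]; omega

theorem d_sub (hd : Dg R d) (a b : R) : d (a - b) ≤ max (d a) (d b) := by
  rw [sub_eq_add_neg, ← d_neg hd b]; exact hd.add _ _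

theorem d_unit (hd : Dg R d) {a b : R} (h : a * b = 1) : a ≠ 0 ∧ b ≠ 0 ∧ d a = 0 ∧ d b = 0 := by
  have ha : a ≠ 0 := fun h0 => by rw [h0, zero_mul] at h; exact zero_ne_one h
  have hb : b ≠ 0 := fun h0 => by rw [h0, mul_zero] at h; exact zero_ne_one h
  have := hd.mul a b ha hb
  rw [h, d_one hd] at this
  exact ⟨ha, hb, by omega, by omega⟩

/-- the maximal degree of the entries -/
def mx (d : R → ℕ) (g : Matrix (Fin 2) (Fin 2) R) : ℕ :=
  max (max (d (g 0 0)) (d (g 0 1))) (max (d (g 1 0)) (d (g 1 1)))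

/-- the maximal degree of the first column -/
def mc (d : R → ℕ) (g : Matrix (Fin 2) (Fin 2) R) : ℕ := max (d (g 0 0)) (d (g 1 0))

theorem le_mx (g : Matrix (Fin 2) (Fin 2) R) (i j : Fin 2) : d (g i j) ≤ mx d g := by
  unfold mx; fin_cases i <;> fin_cases j <;> simp

theorem mx_le {g : Matrix (Fin 2) (Fin 2) R} {n : ℕ} (h : ∀ i j, d (g i j) ≤ n) : mx d g ≤ n := by
  unfold mx; exact max_le (max_le (h _ _) (h _ _)) (max_le (h _ _) (h _ _))

theorem le_mc (g : Matrix (Fin 2) (Fin 2) R) (i : Fin 2) : d (g i 0) ≤ mc d g := by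
  unfold mc; fin_cases i <;> simp

theorem mc_le {g : Matrix (Fin 2) (Fin 2) R} {n : ℕ} (h : ∀ i, d (g i 0) ≤ n) : mc d g ≤ n := by
  unfold mc; exact max_le (h _) (h _)

theorem mx_mul_le (hd : Dg R d) (g a : Matrix (Fin 2) (Fin 2) R) (ha : ∀ i j, d (a i j) = 0) :
    mx d (g * a) ≤ mx d g := by
  refine mx_le fun i j => ?_
  rw [Matrix.mul_apply, Fin.sum_univ_two]
  refine (hd.add _ _).trans (max_le ?_ ?_)
  · refine (d_mul_le hd _ _).trans ?_
    rw [ha]; exact le_mx _ _ _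
  · refine (d_mul_le hd _ _).trans ?_
    rw [ha]; exact le_mx _ _ _

theorem mx_mul (hd : Dg R d) (g a : GLt R) (ha : ∀ i j, d ((a : Matrix (Fin 2) (Fin 2) R) i j) = 0 ∧
    d ((a⁻¹ : GLt R).val i j) = 0) :
    mx d (g * a : GLt R).val = mx d g.val := by
  refine le_antisymm ?_ ?_
  · rw [Units.val_mul]; exact mx_mul_le hd _ _ fun i j => (ha i j).1
  · have h := mx_mul_le hd (g * a : GLt R).val (a⁻¹ : GLt R).val fun i j => (ha i j).2
    rwa [← Units.val_mul, mul_inv_cancel_right] at h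

theorem e_mul (a b : GLt R) (h : a * b = 1) (i j : Fin 2) :
    a.val i 0 * b.val 0 j + a.val i 1 * b.val 1 j = if i = j then 1 else 0 := by
  have h1 : (a * b : GLt R).val i j = (1 : Matrix (Fin 2) (Fin 2) R) i j := by rw [h]; rfl
  rwa [Units.val_mul, Matrix.mul_apply, Fin.sum_univ_two, Matrix.one_apply] at h1

/-- upper triangular matrices have diagonal entries which are units -/
theorem tri (hd : Dg R d) (b : GLt R) (h : b.val 1 0 = 0 ∧ (b⁻¹ : GLt R).val 1 0 = 0) :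
    (b.val 0 0 ≠ 0 ∧ d (b.val 0 0) = 0) ∧ (b.val 1 1 ≠ 0 ∧ d (b.val 1 1) = 0) ∧
    ((b⁻¹ : GLt R).val 1 1 ≠ 0 ∧ d ((b⁻¹ : GLt R).val 1 1) = 0) ∧
    ((b⁻¹ : GLt R).val 0 0 ≠ 0 ∧ d ((b⁻¹ : GLt R).val 0 0) = 0) := by
  have h0 := e_mul b b⁻¹ (mul_inv_cancel b) 0 0
  have h1 := e_mul b b⁻¹ (mul_inv_cancel b) 1 1
  rw [h.2, mul_zero, add_zero, if_pos rfl] at h0
  rw [h.1, zero_mul, zero_add, if_pos rfl] at h1
  have u0 := d_unit hd h0
  have u1 := d_unit hd h1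
  exact ⟨⟨u0.1, u0.2.2.1⟩, ⟨u1.1, u1.2.2.1⟩, ⟨u1.2.1, u1.2.2.2⟩, ⟨u0.2.1, u0.2.2.2⟩⟩

theorem mc_mul (hd : Dg R d) (g b : GLt R) (h : b.val 1 0 = 0 ∧ (b⁻¹ : GLt R).val 1 0 = 0) :
    mc d (g * b : GLt R).val = mc d g.val := by
  have ht := (tri hd b h).1
  have e : ∀ i, d ((g * b : GLt R).val i 0) = d (g.val i 0) := fun i => by
    rw [Units.val_mul, Matrix.mul_apply, Fin.sum_univ_two, h.1, mul_zero, add_zero]
    exact d_mul_right hd ht.1 ht.2 _
  unfold mc; rw [e, e]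

theorem ex_col (hd : Dg R d) (g : GLt R) : ∃ i, g.val i 0 ≠ 0 ∧ d (g.val i 0) = mc d g.val := by
  have h00 := e_mul g⁻¹ g (inv_mul_cancel g) 0 0
  rw [if_pos rfl] at h00
  by_cases h0 : g.val 0 0 = 0
  · have h1 : g.val 1 0 ≠ 0 := fun h1 => by
      rw [h0, h1, mul_zero, mul_zero, add_zero] at h00; exact zero_ne_one h00
    exact ⟨1, h1, by unfold mc; rw [h0, hd.zero]; simp⟩
  · rcases le_or_gt (d (g.val 1 0)) (d (g.val 0 0)) with h | h
    · exact ⟨0, h0, by unfold mc; rw [max_eq_left h]⟩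
    · refine ⟨1, fun h1 => ?_, by unfold mc; rw [max_eq_right h.le]⟩
      rw [h1, hd.zero] at h; omega

/-- two lower neighbours of a vertex of the second kind -/
theorem low1 (hd : Dg R d) (g b : GLt R) (hb : b.val 1 0 = 0 ∧ (b⁻¹ : GLt R).val 1 0 = 0)
    (h1 : mx d g.val ≤ mc d g.val) (h2 : mx d (g * b : GLt R).val ≤ mc d (g * b : GLt R).val) :
    ∀ i j, d (b.val i j) = 0 ∧ d ((b⁻¹ : GLt R).val i j) = 0 := by
  rw [mc_mul hd g b hb] at h2
  obtain ⟨t0, t1, t2, t3⟩ := tri hd b hb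
  obtain ⟨i, hi, hi'⟩ := ex_col hd g
  have hr : d (b.val 0 1) = 0 := by
    by_cases hr : b.val 0 1 = 0
    · rw [hr, hd.zero]
    have e : g.val i 0 * b.val 0 1 = (g * b : GLt R).val i 1 - g.val i 1 * b.val 1 1 := by
      rw [Units.val_mul, Matrix.mul_apply, Fin.sum_univ_two, add_sub_cancel_right]
    have h3 : d (g.val i 0 * b.val 0 1) ≤ mc d g.val := by
      rw [e]
      refine (d_sub hd _ _).trans (max_le ((le_mx _ _ _).trans h2) ?_)
      rw [d_mul_right hd t1.1 t1.2]; exact (le_mx _ _ _).trans h1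
    rw [hd.mul _ _ hi hr, hi'] at h3; omega
  have hr' : d ((b⁻¹ : GLt R).val 0 1) = 0 := by
    have e := e_mul b b⁻¹ (mul_inv_cancel b) 0 1
    rw [if_neg (by decide)] at e
    have e' : b.val 0 0 * (b⁻¹ : GLt R).val 0 1 = -(b.val 0 1 * (b⁻¹ : GLt R).val 1 1) :=
      eq_neg_of_add_eq_zero_left e
    have e2 : d (b.val 0 0 * (b⁻¹ : GLt R).val 0 1) = 0 := by
      rw [e', d_neg hd, d_mul_right hd t2.1 t2.2, hr]
    rwa [d_mul_left hd t0.1 t0.2] at e2
  intro i j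
  fin_cases i <;> fin_cases j
  · exact ⟨t0.2, t3.2⟩
  · exact ⟨hr, hr'⟩
  · exact ⟨(congrArg d hb.1).trans hd.zero, (congrArg d hb.2).trans hd.zero⟩
  · exact ⟨t1.2, t2.2⟩

/-- two lower neighbours of a vertex of the first kind -/
theorem low2 (hd : Dg R d) (g u : GLt R) (hu : ∀ i j, d (u.val i j) = 0 ∧ d ((u⁻¹ : GLt R).val i j) = 0)
    (h1 : mc d g.val < mx d g.val) (h2 : mc d (g * u : GLt R).val < mx d (g * u : GLt R).val) :
    u.val 1 0 = 0 ∧ (u⁻¹ : GLt R).val 1 0 = 0 := by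
  rw [mx_mul hd g u hu] at h2
  have h10 : u.val 1 0 = 0 := by
    by_contra hne
    have h3 : ∀ i, d (g.val i 1) < mx d g.val := fun i => by
      have e : g.val i 1 * u.val 1 0 = (g * u : GLt R).val i 0 - g.val i 0 * u.val 0 0 := by
        rw [Units.val_mul, Matrix.mul_apply, Fin.sum_univ_two, add_sub_cancel_left]
      rw [← d_mul_right hd hne (hu 1 0).1 (g.val i 1), e]
      refine lt_of_le_of_lt (d_sub hd _ _) (max_lt (lt_of_le_of_lt (le_mc _ _) h2) ?_)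
      refine lt_of_le_of_lt (d_mul_le hd _ _) ?_
      rw [(hu 0 0).1]; exact lt_of_le_of_lt (le_mc _ _) h1
    have h4 : ∀ i j, d (g.val i j) < mx d g.val := fun i j => by
      fin_cases j
      · exact lt_of_le_of_lt (le_mc _ _) h1
      · exact h3 i
    have h5 : mx d g.val ≤ mx d g.val - 1 := mx_le fun i j => by have := h4 i j; omega
    omega
  refine ⟨h10, ?_⟩
  have e := e_mul u⁻¹ u (inv_mul_cancel u) 1 0
  have e0 := e_mul u⁻¹ u (inv_mul_cancel u) 0 0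
  rw [h10, mul_zero, add_zero, if_neg (by decide)] at e
  rw [h10, mul_zero, add_zero, if_pos rfl] at e0
  rcases mul_eq_zero.1 e with h | h
  · exact h
  · rw [h, mul_zero] at e0; exact absurd e0 zero_ne_one

end deg

theorem t_HT : S_HT := by
  intro hT hC hM hG R _ _ d hd hU
  have hMem := hM R d hd
  -- the height
  let h : (GE R ⧸ AG d) ⊕ (GE R ⧸ BG R) → ℕ :=
    Sum.elim (fun q => 2 * mx d (q.out : GLt R).val) (fun q => 2 * mc d (q.out : GLt R).val + 1)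
  have hA : ∀ g : GE R, h (Sum.inl (g : GE R ⧸ AG d)) = 2 * mx d (g : GLt R).val := fun g => by
    obtain ⟨a, ha⟩ := QuotientGroup.mk_out_eq_mul (AG d) g
    show 2 * mx d (((g : GE R ⧸ AG d).out : GE R) : GLt R).val = _
    rw [ha, Subgroup.coe_mul, mx_mul hd _ _ ((hMem.1 _).1 (Subgroup.mem_subgroupOf.1 a.2))]
  have hB : ∀ g : GE R, h (Sum.inr (g : GE R ⧸ BG R)) = 2 * mc d (g : GLt R).val + 1 := fun g => by
    obtain ⟨a, ha⟩ := QuotientGroup.mk_out_eq_mul (BG R) g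
    show 2 * mc d (((g : GE R ⧸ BG R).out : GE R) : GLt R).val + 1 = _
    rw [ha, Subgroup.coe_mul, mc_mul hd _ _ ((hMem.2 _).1 (Subgroup.mem_subgroupOf.1 a.2))]
  refine hT _ _ h (hC _ _ _ (hG hM R d hd hU).2) ?_ ?_
  · rintro u v ⟨g, ⟨rfl, rfl⟩ | ⟨rfl, rfl⟩⟩
    · rw [hA, hB]; omega
    · rw [hA, hB]; omega
  · rintro v a b ⟨g, ⟨hv, rfl⟩ | ⟨hv, rfl⟩⟩ ⟨g', ⟨hv', rfl⟩ | ⟨hv', rfl⟩⟩ h1 h2
    · -- `v` of the first kind
      rw [hv] at hv'
      have e : (g : GE R ⧸ AG d) = g' := Sum.inl_injective hv'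
      have hu : g⁻¹ * g' ∈ AG d := QuotientGroup.eq.1 e
      rw [hB, hv, hA] at h1
      rw [hB, hv, e, hA] at h2
      have hg' : (g' : GLt R) = (g : GLt R) * ((g⁻¹ * g' : GE R) : GLt R) := by
        rw [← Subgroup.coe_mul, mul_inv_cancel_left]
      rw [hg'] at h2
      have := low2 hd (g : GLt R) ((g⁻¹ * g' : GE R) : GLt R)
        ((hMem.1 _).1 (Subgroup.mem_subgroupOf.1 hu)) (by omega) (by omega)
      have hu' : g⁻¹ * g' ∈ BG R := Subgroup.mem_subgroupOf.2 ((hMem.2 _).2 this)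
      rw [(QuotientGroup.eq (s := BG R)).2 hu']
    · rw [hv] at hv'; exact absurd hv' (by simp)
    · rw [hv] at hv'; exact absurd hv' (by simp)
    · rw [hv] at hv'
      have e : (g : GE R ⧸ BG R) = g' := Sum.inr_injective hv'
      have hu : g⁻¹ * g' ∈ BG R := QuotientGroup.eq.1 e
      rw [hA, hv, hB] at h1
      rw [hA, hv, e, hB] at h2
      have hg' : (g' : GLt R) = (g : GLt R) * ((g⁻¹ * g' : GE R) : GLt R) := by
        rw [← Subgroup.coe_mul, mul_inv_cancel_left]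
      rw [hg'] at h2
      have := low1 hd (g : GLt R) ((g⁻¹ * g' : GE R) : GLt R)
        ((hMem.2 _).1 (Subgroup.mem_subgroupOf.1 hu)) (by omega) (by omega)
      have hu' : g⁻¹ * g' ∈ AG d := Subgroup.mem_subgroupOf.2 ((hMem.1 _).2 this)
      rw [(QuotientGroup.eq (s := AG d)).2 hu']

end Pool.Agent.T2h61.RF.HT
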