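import Pool.Agent.T2h61.RF.Stm

/-! Project RF (owner helper61), task MEM. -/

set_option autoImplicit false

namespace Pool.Agent.T2h61.RF.MEM

open Pool.Agent.T2h61.RF

variable {R : Type} [Ring R] {d : R → ℕ}

theorem d_one [IsDomain R] (hd : Dg R d) : d 1 = 0 := by
  have h := hd.mul 1 1 one_ne_zero one_ne_zero
  rw [mul_one] at h
  omega

theorem d_mul (hd : Dg R d) {a b : R} (ha : d a = 0) (hb : d b = 0) : d (a * b) = 0 := by
  by_cases h1 : a = 0
  · rw [h1, zero_mul, hd.zero]
  · by_cases h2 : b = 0
    · rw [h2, mul_zero, hd.zero]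
    · rw [hd.mul a b h1 h2, ha, hb]

theorem d_add (hd : Dg R d) {a b : R} (ha : d a = 0) (hb : d b = 0) : d (a + b) = 0 := by
  have h := hd.add a b
  rw [ha, hb] at h
  simpa using h

theorem d_mat (hd : Dg R d) {M N : Matrix (Fin 2) (Fin 2) R} (hM : ∀ i j, d (M i j) = 0)
    (hN : ∀ i j, d (N i j) = 0) (i j : Fin 2) : d ((M * N) i j) = 0 := by
  rw [Matrix.mul_apply, Fin.sum_univ_two]
  exact d_add hd (d_mul hd (hM _ _) (hN _ _)) (d_mul hd (hM _ _) (hN _ _))

theorem t_MEM : S_MEM := by
  intro R _ _ d hd
  constructor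
  · intro g
    constructor
    · intro hg
      refine Subgroup.closure_induction (p := fun (g : GLt R) _ => ∀ i j,
        d ((g : Matrix (Fin 2) (Fin 2) R) i j) = 0 ∧ d ((g⁻¹ : GLt R).val i j) = 0)
        (fun x hx => hx) ?_ ?_ ?_ hg
      · intro i j
        have h1 : d ((1 : Matrix (Fin 2) (Fin 2) R) i j) = 0 := by
          rw [Matrix.one_apply]
          split_ifs
          · exact d_one hd
          · exact hd.zero
        refine ⟨h1, ?_⟩
        rw [inv_one]
        exact h1
      · intro x y _ _ hx hy i j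
        refine ⟨?_, ?_⟩
        · rw [Units.val_mul]
          exact d_mat hd (fun i j => (hx i j).1) (fun i j => (hy i j).1) i j
        · rw [mul_inv_rev, Units.val_mul]
          exact d_mat hd (fun i j => (hy i j).2) (fun i j => (hx i j).2) i j
      · intro x _ hx i j
        refine ⟨(hx i j).2, ?_⟩
        rw [inv_inv]
        exact (hx i j).1
    · exact fun h => Subgroup.subset_closure h
  · intro g
    constructor
    · intro hg
      refine Subgroup.closure_induction (p := fun (g : GLt R) _ =>
        (g : Matrix (Fin 2) (Fin 2) R) 1 0 = 0 ∧ (g⁻¹ : GLt R).val 1 0 = 0)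
        (fun x hx => hx) ?_ ?_ ?_ hg
      · refine ⟨?_, ?_⟩
        · simp
        · rw [inv_one]
          simp
      · intro x y _ _ hx hy
        refine ⟨?_, ?_⟩
        · rw [Units.val_mul, Matrix.mul_apply, Fin.sum_univ_two, hx.1, hy.1, zero_mul, mul_zero,
            add_zero]
        · rw [mul_inv_rev, Units.val_mul, Matrix.mul_apply, Fin.sum_univ_two, hx.2, hy.2, zero_mul,
            mul_zero, add_zero]
      · intro x _ hx
        refine ⟨hx.2, ?_⟩
        rw [inv_inv]
        exact hx.1
    · exact fun h => Subgroup.subset_closure h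

end Pool.Agent.T2h61.RF.MEM
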