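import Pool.Agent.T2h61.RF.Stm

/-!
# Project RF: task RFM
-/

set_option autoImplicit false

namespace Pool.Agent.T2h61.RF.RFM

theorem t_RFM : S_RFM := by
  intro k A _ _ _ hA W hW
  have hW' : FiniteDimensional k
      (⨆ p : Fin 2 × Fin 2, W.map (Matrix.entryLinearMap k A p.1 p.2) : Submodule k A) := by
    refine Submodule.finiteDimensional_iSup _
  obtain ⟨m, φ, hφ⟩ := hA _ hW'
  refine ⟨2 * m, ((Matrix.reindexAlgEquiv k k (finProdFinEquiv : Fin 2 × Fin m ≃ Fin (2 * m))).toAlgHom.comp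
    (Matrix.compAlgEquiv (Fin 2) (Fin m) k k).toAlgHom).comp φ.mapMatrix, fun a ha h0 => ?_⟩
  have h1 : (Matrix.reindexAlgEquiv k k (finProdFinEquiv : Fin 2 × Fin m ≃ Fin (2 * m)))
      ((Matrix.compAlgEquiv (Fin 2) (Fin m) k k) (φ.mapMatrix a)) = 0 := h0
  have h2 : (Matrix.compAlgEquiv (Fin 2) (Fin m) k k) (φ.mapMatrix a) = 0 := by
    apply (Matrix.reindexAlgEquiv k k (finProdFinEquiv : Fin 2 × Fin m ≃ Fin (2 * m))).injective
    rw [h1, map_zero]
  have h3 : φ.mapMatrix a = 0 := by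
    apply (Matrix.compAlgEquiv (Fin 2) (Fin m) k k).injective
    rw [h2, map_zero]
  ext i j
  have h4 : φ (a i j) = 0 := by
    have := congrFun (congrFun h3 i) j
    simpa using this
  refine hφ (a i j) ?_ h4
  refine Submodule.mem_iSup_of_mem (i, j) ?_
  exact Submodule.mem_map.2 ⟨a, ha, rfl⟩

end Pool.Agent.T2h61.RF.RFM
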