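import Pool.Agent.T2h61.RF.Stm

set_option autoImplicit false

namespace Pool.Agent.T2h61.RF.RFT

theorem t_RFT : S_RFT := by
  intro k A _ _ _ h W hW
  obtain ⟨I, hI, h1⟩ := Pool.Agent.T2h61.GT.exists_ideal h W
  let b := Module.finBasis k (A ⧸ I)
  refine ⟨Module.finrank k (A ⧸ I), ((LinearMap.toMatrixAlgEquiv b).toAlgHom.comp
    (Algebra.lmul k (A ⧸ I))).comp (Ideal.Quotient.mkₐ k I), fun a ha h0 => h1 a ha ?_⟩
  have h2 : (LinearMap.toMatrixAlgEquiv b) (Algebra.lmul k (A ⧸ I) (Ideal.Quotient.mkₐ k I a)) = 0 := h0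
  have h3 : Algebra.lmul k (A ⧸ I) (Ideal.Quotient.mkₐ k I a) = 0 :=
    (LinearMap.toMatrixAlgEquiv b).injective (by rw [h2, map_zero])
  have h4 : (Ideal.Quotient.mkₐ k I a) * 1 = 0 := by
    have := congrArg (fun F : Module.End k (A ⧸ I) => F 1) h3
    simpa using this
  rw [mul_one] at h4
  exact Ideal.Quotient.eq_zero_iff_mem.1 h4

end Pool.Agent.T2h61.RF.RFT
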