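import Pool.Agent.T2h61.RF.Stm

set_option autoImplicit false

namespace Pool.Agent.T2h61.RF.UN

theorem d_unit {R : Type} [Ring R] [IsDomain R] {d : R → ℕ} (hd : Dg R d) {u v : R} (h : u * v = 1) :
    d u = 0 := by
  have hu : u ≠ 0 := by rintro rfl; simp at h
  have hv : v ≠ 0 := by rintro rfl; simp at h
  have h1 : d (1 : R) = 0 := by
    have := hd.mul 1 1 one_ne_zero one_ne_zero
    rw [mul_one] at this; omega
  have := hd.mul u v hu hv
  rw [h, h1] at this; omega

theorem t_UN : S_UN := by
  intro k R _ _ _ _ d hd hD a ha hda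
  obtain ⟨D, hDf, hD⟩ := hD
  let D' : Submodule k R :=
    { carrier := {x | d x = 0}
      zero_mem' := hd.zero
      add_mem' := fun {x y} hx hy => by
        have := hd.add x y
        change d x = 0 at hx; change d y = 0 at hy; change d (x + y) = 0
        rw [hx, hy] at this
        simpa using this
      smul_mem' := fun c x hx => by
        change d x = 0 at hx; change d (c • x) = 0
        by_cases hc : c = 0
        · rw [hc, zero_smul]; exact hd.zero
        by_cases hx0 : x = 0
        · rw [hx0, smul_zero]; exact hd.zero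
        have h1 : algebraMap k R c * algebraMap k R c⁻¹ = 1 := by
          rw [← map_mul, mul_inv_cancel₀ hc, map_one]
        have h2 := d_unit hd h1
        have h3 : algebraMap k R c ≠ 0 := by
          intro h; rw [h, zero_mul] at h1; exact zero_ne_one h1
        rw [Algebra.smul_def, hd.mul _ _ h3 hx0, h2, hx] }
  have hD'D : D' ≤ D := fun x hx => hD x hx
  have : FiniteDimensional k D' := Submodule.finiteDimensional_of_le hD'D
  have hmul : ∀ x : R, d x = 0 → d (a * x) = 0 := fun x hx => by
    by_cases hx0 : x = 0
    · rw [hx0, mul_zero]; exact hd.zero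
    rw [hd.mul _ _ ha hx0, hda, hx]
  let f : D' →ₗ[k] D' :=
    { toFun := fun x => ⟨a * x, hmul x x.2⟩
      map_add' := fun x y => Subtype.ext (by simp [mul_add])
      map_smul' := fun c x => Subtype.ext (by simp) }
  have hf : Function.Injective f := by
    intro x y hxy
    have h := congrArg Subtype.val hxy
    exact Subtype.ext (mul_left_cancel₀ ha h)
  have hs := LinearMap.injective_iff_surjective.1 hf
  have h1 : d (1 : R) = 0 := d_unit hd (mul_one (1:R))
  obtain ⟨b, hb⟩ := hs ⟨1, h1⟩
  have hab : a * (b : R) = 1 := congrArg Subtype.val hb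
  have hba : (b : R) * a = 1 := by
    have : a * ((b : R) * a) = a * 1 := by rw [← mul_assoc, hab, one_mul, mul_one]
    exact mul_left_cancel₀ ha this
  exact ⟨⟨a, b, hab, hba⟩, rfl⟩

end Pool.Agent.T2h61.RF.UN
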