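import Pool.Agent.T2h61.RF.Stm
import Pool.Agent.N509.TK.Loc

/-! Project RF (owner helper61), task UNI. -/

set_option autoImplicit false

namespace Pool.Agent.T2h61.RF.UNI

open Pool.Agent.T2h61.RF
open Pool.Agent.Y110.FJ (ClosedE)

theorem t_UNI : S_UNI := by
  intro C hC k A _ _ _ hA hk H V _ _ T hT hact hV ρ hE
  refine Pool.Agent.N509.TK.edges hC hT hact hV fun u v huv => ?_
  obtain ⟨W, hW, h1⟩ := hE u v huv
  obtain ⟨m, φ, hφ⟩ := hA (W ⊔ Submodule.span k {(1 : A)}) inferInstance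
  refine ⟨Matrix.GeneralLinearGroup (Fin m) k, inferInstance,
    (Units.map (φ : A →* Matrix (Fin m) (Fin m) k)).comp ρ, hk m, fun h hu hv hf => ?_⟩
  obtain ⟨h2, h3⟩ := h1 h hu hv
  refine h3 (Units.ext ?_)
  have h4 : φ (ρ h : A) = 1 := by
    have h5 := congrArg (fun x : (Matrix (Fin m) (Fin m) k)ˣ => (x : Matrix (Fin m) (Fin m) k)) hf
    exact h5
  have h5 : (ρ h : A) - 1 = 0 := by
    refine hφ _ (Submodule.sub_mem _ (Submodule.mem_sup_left h2)
      (Submodule.mem_sup_right (Submodule.mem_span_singleton_self 1))) ?_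
    rw [map_sub, h4, map_one, sub_self]
  rw [Units.val_one]
  exact sub_eq_zero.1 h5

end Pool.Agent.T2h61.RF.UNI
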