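import Pool.Agent.T2h61.RF.GEC
import Pool.Agent.T2h61.RF.T_UNI
import Pool.Agent.T2h61.RF.T_MEM
import Pool.Agent.T2h61.RF.T_GEN
import Pool.Agent.T2h61.RF.T_HT
import Pool.Agent.T2h61.RF.T_UN
import Pool.Agent.T2h61.RF.T_RFM
import Pool.Agent.T2h61.RF.T_RFC
import Pool.Agent.T2h61.RF.T_RFT
import Pool.Agent.T2h61.RF.T_FRD
import Pool.Agent.T2h61.RF.T_FRR
import Pool.Agent.T2h61.PL.T_TREE
import Pool.Agent.T2h61.PL.T_CON

/-!
# Assembly of project RF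
-/

set_option autoImplicit false

namespace Pool.Agent.T2h61.RF

open Pool.Agent.Y110.FJ (ClosedE)
open Pool.Agent.T2h61.PL

variable {C : ∀ (G : Type) [Group G], Prop}

theorem ge (hC : ClosedE C) (hM : ∀ (G : Type) [Group G], derivedSeries G 2 = ⊥ → C G)
    (k R : Type) [Field k] [Ring R] [IsDomain R] [Algebra k R]
    (hk : ∀ n, C (Matrix.GeneralLinearGroup (Fin n) k)) (hR : RFD k R) (d : R → ℕ) (hd : Dg R d)
    (hD : ∃ D : Submodule k R, FiniteDimensional k D ∧ ∀ a, d a = 0 → a ∈ D) : C (GE R) :=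
  t_GEC UNI.t_UNI MEM.t_MEM GEN.t_GEN TREE.t_TREE CON.t_CON HT.t_HT UN.t_UN t_VS RFM.t_RFM C hC hM k R
    hk hR d hd hD

theorem free (hC : ClosedE C) (hM : ∀ (G : Type) [Group G], derivedSeries G 2 = ⊥ → C G)
    (k X : Type) [Field k] (hk : ∀ n, C (Matrix.GeneralLinearGroup (Fin n) k)) :
    C (GE (FreeAlgebra k X)) := by
  obtain ⟨hdom, d, hd, h0⟩ := FRD.t_FRD k X
  exact ge hC hM k _ hk (FRR.t_FRR k X) d hd ⟨Submodule.span k {1}, inferInstance, h0⟩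

end Pool.Agent.T2h61.RF
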