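import Pool.Agent.T2h61.RF.VS
import Pool.Agent.T2h61.PL.ACY7

/-!
# GEC: `GE_2(R)` is in the class
-/

set_option autoImplicit false

namespace Pool.Agent.T2h61.RF

open Pool.Agent.Y110.FJ (ClosedE)
open Pool.Agent.T2h61.PL

namespace GECx

open VSx

variable {R : Type} [Ring R] [IsDomain R] {d : R → ℕ} {k : Type} [Field k] [Algebra k R]

/-- conjugates of the matrices with entries of degree zero -/
def cj (h : Dg R d) (g : GLt R) :
    (Fin 2 → Fin 2 → D0 k h) →ₗ[k] Matrix (Fin 2) (Fin 2) R where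
  toFun x := g.val * (Matrix.of fun i j => (x i j : R)) * (g⁻¹ : GLt R).val
  map_add' x y := by
    have e : (Matrix.of fun i j => ((x + y) i j : R)) =
        (Matrix.of fun i j => (x i j : R)) + (Matrix.of fun i j => (y i j : R)) := by
      ext i j
      rfl
    rw [e, mul_add, add_mul]
  map_smul' c x := by
    have e : (Matrix.of fun i j => ((c • x) i j : R)) =
        c • (Matrix.of fun i j => (x i j : R)) := by
      ext i j
      rfl
    rw [e, mul_smul_comm, smul_mul_assoc, RingHom.id_apply]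

theorem edge (hM : S_MEM) (h : Dg R d) (hfd : FiniteDimensional k (D0 k h)) (g : GE R) :
    ∃ W : Submodule k (Matrix (Fin 2) (Fin 2) R), FiniteDimensional k W ∧
      ∀ x : GE R, x • (Sum.inl (g : GE R ⧸ AG d) : (GE R ⧸ AG d) ⊕ (GE R ⧸ BG R)) =
        Sum.inl (g : GE R ⧸ AG d) → (((GE R).subtype x : GLt R) : Matrix (Fin 2) (Fin 2) R) ∈ W := by
  refine ⟨LinearMap.range (cj (k := k) h (g : GLt R)), inferInstance, ?_⟩
  intro x hx
  have h1 : g⁻¹ * x * g ∈ AG d := ACY7.stab_inl (AG d) (BG R) g x hx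
  have h2 : ((g⁻¹ * x * g : GE R) : GLt R) ∈ A0 d := h1
  have h3 := ((hM R d h).1 _).1 h2
  refine ⟨fun i j => ⟨((g⁻¹ * x * g : GE R) : GLt R).val i j, (h3 i j).1⟩, ?_⟩
  show (g : GLt R).val * (((g : GLt R)⁻¹ : GLt R).val * (x : GLt R).val * (g : GLt R).val) *
    ((g : GLt R)⁻¹ : GLt R).val = (x : GLt R).val
  rw [← Units.val_mul, ← Units.val_mul, ← Units.val_mul, ← Units.val_mul]
  congr 1
  group

end GECx

open VSx GECx

theorem t_GEC : S_GEC := by
  intro hUNI hM hGEN hTREE hCON hHT hUN hVS hRFM C hC hMe k R _ _ _ _ hGL hR d h hD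
  have hu : ∀ a : R, a ≠ 0 → d a = 0 → IsUnit a := hUN k R d h hD
  have hT : (CG (AG d) (BG R)).IsTree := hHT hTREE hCON hM hGEN R d h hu
  obtain ⟨hCA, hCB⟩ := hVS hM C hC hMe k R hGL d h hD
  have hfd : FiniteDimensional k (D0 k h) := by
    obtain ⟨D, hDf, hD1⟩ := hD
    have hle : D0 k h ≤ D := fun a ha => hD1 a ha
    exact Submodule.finiteDimensional_of_le hle
  have hRM : RFD k (Matrix (Fin 2) (Fin 2) R) := hRFM k R hR
  refine hUNI C hC k (Matrix (Fin 2) (Fin 2) R) hRM hGL (GE R) _ (CG (AG d) (BG R)) hT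
    (fun g u v huv => ACY7.act _ _ g u v huv) ?_ (GE R).subtype ?_
  · intro v
    rcases v with v | v
    · obtain ⟨x, rfl⟩ := QuotientGroup.mk_surjective v
      exact ACY7.conj hC (A0 d) (GE R) hCA _ x fun y hy => ACY7.stab_inl (AG d) (BG R) x y hy
    · obtain ⟨x, rfl⟩ := QuotientGroup.mk_surjective v
      exact ACY7.conj hC (B0 R) (GE R) hCB _ x fun y hy => ACY7.stab_inr (AG d) (BG R) x y hy
  · intro u v huv
    have hinj : ∀ x : GE R, (GE R).subtype x = 1 → x = 1 := fun x hx => Subtype.ext hx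
    obtain ⟨g, h1 | h1⟩ := huv
    · obtain ⟨rfl, rfl⟩ := h1
      obtain ⟨W, hW, hW1⟩ := edge hM h hfd g
      exact ⟨W, hW, fun x hx _ => ⟨hW1 x hx, hinj x⟩⟩
    · obtain ⟨rfl, rfl⟩ := h1
      obtain ⟨W, hW, hW1⟩ := edge hM h hfd g
      exact ⟨W, hW, fun x _ hx => ⟨hW1 x hx, hinj x⟩⟩

end Pool.Agent.T2h61.RF
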