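import Pool.Agent.T2h61.PL.Stm
import Pool.Agent.T2h61.GT.One

/-!
# Groups of units of residually finite-dimensional algebras acting on trees: statements of the tasks

Owner helper61.
-/

set_option autoImplicit false

namespace Pool.Agent.T2h61.RF

open Pool.Agent.Y110.FJ (ClosedE)
open Pool.Agent.T2h61.PL

/-- residually finite-dimensional algebras (not necessarily commutative): every finite-dimensional
subspace is mapped injectively by some finite-dimensional representation -/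
def RFD (k A : Type) [Field k] [Ring A] [Algebra k A] : Prop :=
  ∀ W : Submodule k A, FiniteDimensional k W →
    ∃ (m : ℕ) (φ : A →ₐ[k] Matrix (Fin m) (Fin m) k), ∀ a ∈ W, φ a = 0 → a = 0

/-- **UNI** (60 lines). Groups acting on trees whose edge stabilizers lie in finite-dimensional subspaces
of a residually finite-dimensional algebra. -/
def S_UNI : Prop := ∀ (C : ∀ (G : Type) [Group G], Prop), ClosedE C →
  ∀ (k A : Type) [Field k] [Ring A] [Algebra k A], RFD k A →
  (∀ n, C (Matrix.GeneralLinearGroup (Fin n) k)) →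
  ∀ (H V : Type) [Group H] [MulAction H V] (T : SimpleGraph V), T.IsTree →
  (∀ (h : H) (u v : V), T.Adj u v → T.Adj (h • u) (h • v)) →
  (∀ v : V, C ↥(MulAction.stabilizer H v)) →
  ∀ ρ : H →* Aˣ, (∀ u v : V, T.Adj u v → ∃ W : Submodule k A, FiniteDimensional k W ∧
    ∀ h : H, h • u = u → h • v = v → (ρ h : A) ∈ W ∧ (ρ h = 1 → h = 1)) → C H

/-- a degree function on a domain -/
structure Dg (R : Type) [Ring R] (d : R → ℕ) : Prop where
  zero : d 0 = 0
  add : ∀ a b, d (a + b) ≤ max (d a) (d b)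
  mul : ∀ a b, a ≠ 0 → b ≠ 0 → d (a * b) = d a + d b

/-- the group of the invertible matrices of degree two -/
abbrev GLt (R : Type) [Ring R] : Type := (Matrix (Fin 2) (Fin 2) R)ˣ

section defs

variable {R : Type} [Ring R]

/-- the invertible matrices of degree zero -/
def A0 (d : R → ℕ) : Subgroup (GLt R) := Subgroup.closure
  {g | ∀ i j, d ((g : Matrix (Fin 2) (Fin 2) R) i j) = 0 ∧ d ((g⁻¹ : GLt R).val i j) = 0}

/-- the invertible upper triangular matrices -/
def B0 (R : Type) [Ring R] : Subgroup (GLt R) := Subgroup.closure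
  {g | (g : Matrix (Fin 2) (Fin 2) R) 1 0 = 0 ∧ (g⁻¹ : GLt R).val 1 0 = 0}

/-- `GE_2(R)`, the group generated by the invertible upper triangular and lower triangular matrices -/
def GE (R : Type) [Ring R] : Subgroup (GLt R) := Subgroup.closure
  ({g | (g : Matrix (Fin 2) (Fin 2) R) 1 0 = 0 ∧ (g⁻¹ : GLt R).val 1 0 = 0} ∪
    {g | (g : Matrix (Fin 2) (Fin 2) R) 0 1 = 0 ∧ (g⁻¹ : GLt R).val 0 1 = 0})

/-- the vertex groups inside `GE_2(R)` -/
def AG (d : R → ℕ) : Subgroup (GE R) := (A0 d).subgroupOf (GE R)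

/-- the vertex groups inside `GE_2(R)` -/
def BG (R : Type) [Ring R] : Subgroup (GE R) := (B0 R).subgroupOf (GE R)

end defs

/-- **MEM** (80 lines). -/
def S_MEM : Prop := ∀ (R : Type) [Ring R] [IsDomain R] (d : R → ℕ), Dg R d →
  (∀ g : GLt R, g ∈ A0 d ↔ ∀ i j, d ((g : Matrix (Fin 2) (Fin 2) R) i j) = 0 ∧
    d ((g⁻¹ : GLt R).val i j) = 0) ∧
  (∀ g : GLt R, g ∈ B0 R ↔ (g : Matrix (Fin 2) (Fin 2) R) 1 0 = 0 ∧ (g⁻¹ : GLt R).val 1 0 = 0)

/-- **GEN** (100 lines). `GE_2(R)` is generated by the two groups. -/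
def S_GEN : Prop := S_MEM → ∀ (R : Type) [Ring R] [IsDomain R] (d : R → ℕ), Dg R d →
  (∀ a : R, a ≠ 0 → d a = 0 → IsUnit a) → A0 d ⊔ B0 R = GE R ∧ AG d ⊔ BG R = ⊤

/-- **HT** (180 lines). The coset graph is a tree. -/
def S_HT : Prop := S_TREE → S_CON → S_MEM → S_GEN → ∀ (R : Type) [Ring R] [IsDomain R] (d : R → ℕ),
  Dg R d → (∀ a : R, a ≠ 0 → d a = 0 → IsUnit a) → (CG (AG d) (BG R)).IsTree

/-- **UN** (40 lines). -/
def S_UN : Prop := ∀ (k R : Type) [Field k] [Ring R] [IsDomain R] [Algebra k R] (d : R → ℕ), Dg R d →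
  (∃ D : Submodule k R, FiniteDimensional k D ∧ ∀ a, d a = 0 → a ∈ D) →
  ∀ a : R, a ≠ 0 → d a = 0 → IsUnit a

/-- **VS** (120 lines). The vertex groups. -/
def S_VS : Prop := S_MEM → ∀ (C : ∀ (G : Type) [Group G], Prop), ClosedE C →
  (∀ (G : Type) [Group G], derivedSeries G 2 = ⊥ → C G) →
  ∀ (k R : Type) [Field k] [Ring R] [IsDomain R] [Algebra k R],
  (∀ n, C (Matrix.GeneralLinearGroup (Fin n) k)) → ∀ d : R → ℕ, Dg R d →
  (∃ D : Submodule k R, FiniteDimensional k D ∧ ∀ a, d a = 0 → a ∈ D) → C (A0 d) ∧ C (B0 R)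

/-- **RFM** (60 lines). -/
def S_RFM : Prop := ∀ (k A : Type) [Field k] [Ring A] [Algebra k A], RFD k A →
  RFD k (Matrix (Fin 2) (Fin 2) A)

/-- **GEC** (120 lines). `GE_2(R)` is in the class. -/
def S_GEC : Prop := S_UNI → S_MEM → S_GEN → S_TREE → S_CON → S_HT → S_UN → S_VS → S_RFM →
  ∀ (C : ∀ (G : Type) [Group G], Prop), ClosedE C →
  (∀ (G : Type) [Group G], derivedSeries G 2 = ⊥ → C G) →
  ∀ (k R : Type) [Field k] [Ring R] [IsDomain R] [Algebra k R],
  (∀ n, C (Matrix.GeneralLinearGroup (Fin n) k)) → RFD k R → ∀ d : R → ℕ, Dg R d →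
  (∃ D : Submodule k R, FiniteDimensional k D ∧ ∀ a, d a = 0 → a ∈ D) → C (GE R)

/-- **FRD** (150 lines). The degree function of the free algebra. -/
def S_FRD : Prop := ∀ (k X : Type) [Field k], IsDomain (FreeAlgebra k X) ∧
  ∃ d : FreeAlgebra k X → ℕ, Dg (FreeAlgebra k X) d ∧
    ∀ a, d a = 0 → a ∈ Submodule.span k {(1 : FreeAlgebra k X)}

/-- **FRR** (100 lines). Free algebras are residually finite-dimensional. -/
def S_FRR : Prop := ∀ (k X : Type) [Field k], RFD k (FreeAlgebra k X)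

/-- **RFC** (60 lines). The elementwise condition suffices. -/
def S_RFC : Prop := ∀ (k A : Type) [Field k] [Ring A] [Algebra k A],
  (∀ a : A, a ≠ 0 → ∃ (m : ℕ) (φ : A →ₐ[k] Matrix (Fin m) (Fin m) k), φ a ≠ 0) → RFD k A

/-- **RFT** (100 lines). Matrices over commutative residually finite-dimensional algebras. -/
def S_RFT : Prop := ∀ (k A : Type) [Field k] [CommRing A] [Algebra k A],
  (∀ a : A, a ≠ 0 → ∃ I : Ideal A, Module.Finite k (A ⧸ I) ∧ a ∉ I) → RFD k A

/-! ### automorphisms of the plane fixing the origin -/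

/-- the automorphisms of `k[x, y]` which fix the origin -/
def fixO (k : Type) [Field k] : Subgroup (Au k) where
  carrier := {g | ∀ u, MvPolynomial.constantCoeff (g u) = MvPolynomial.constantCoeff u}
  one_mem' := fun _ => rfl
  mul_mem' := fun {a b} ha hb u => (ha (b u)).trans (hb u)
  inv_mem' := fun {a} ha u => by
    have h := ha (a⁻¹ u)
    have e : a (a⁻¹ u) = u := AlgEquiv.apply_symm_apply a u
    rw [e] at h
    exact h.symm

/-- the tame automorphisms fixing the origin -/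
noncomputable def tameO (k : Type) [Field k] : Subgroup (Au k) := fixO k ⊓ tame (⊤ : Subfield k)

/-- **ORD** (50 lines). -/
def S_ORD : Prop := ∀ (k : Type) [Field k] (t : Au k), ∃ N : ℕ, ∀ b : Au k, IsAff (⊤ : Subfield k) b →
  ∀ i, dg ((t * b * t⁻¹) (MvPolynomial.X i)) ≤ N

/-- **JET** (100 lines). -/
def S_JET : Prop := ∀ (k : Type) [Field k] (N : ℕ), ∃ (V : Type) (_ : AddCommGroup V) (_ : Module k V),
  FiniteDimensional k V ∧ ∃ f : fixO k →* (V →ₗ[k] V)ˣ,
    ∀ g : fixO k, (∀ i, dg ((g : Au k) (MvPolynomial.X i)) ≤ N) → f g = 1 → g = 1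

/-- **ORG** (120 lines). The tame automorphisms fixing the origin, in every characteristic. -/
def S_ORG : Prop := S_GRP → S_VA → S_VJ → S_GT → S_TREE → S_CON → S_DEG → S_ORD → S_JET →
  ∀ (C : ∀ (G : Type) [Group G], Prop), ClosedE C →
  (∀ (G : Type) [Group G], derivedSeries G 2 = ⊥ → C G) →
  ∀ (k : Type) [Field k], (∀ n, C (Matrix.GeneralLinearGroup (Fin n) k)) → C (tameO k)

end Pool.Agent.T2h61.RF
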