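import Pool.Agent.T2h61.RF.Stm

/-!
# VS: the vertex groups
-/

set_option autoImplicit false

namespace Pool.Agent.T2h61.RF

open Pool.Agent.Y110.FJ (ClosedE)
open Pool.Agent.T2h61.PL

namespace VSx

section deg

variable {R : Type} [Ring R] [IsDomain R] {d : R → ℕ}

theorem d_one (h : Dg R d) : d 1 = 0 := by
  have := h.mul 1 1 one_ne_zero one_ne_zero
  rw [mul_one] at this
  omega

theorem d_mul0 (h : Dg R d) {a b : R} (ha : d a = 0) (hb : d b = 0) : d (a * b) = 0 := by
  by_cases ha0 : a = 0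
  · rw [ha0, zero_mul, h.zero]
  by_cases hb0 : b = 0
  · rw [hb0, mul_zero, h.zero]
  rw [h.mul _ _ ha0 hb0, ha, hb]

theorem d_unit (h : Dg R d) {a b : R} (hab : a * b = 1) : d a = 0 := by
  have ha0 : a ≠ 0 := by
    rintro rfl
    rw [zero_mul] at hab
    exact zero_ne_one hab
  have hb0 : b ≠ 0 := by
    rintro rfl
    rw [mul_zero] at hab
    exact zero_ne_one hab
  have := h.mul a b ha0 hb0
  rw [hab, d_one h] at this
  omega

variable {k : Type} [Field k] [Algebra k R]

theorem d_alg (h : Dg R d) (c : k) : d (algebraMap k R c) = 0 := by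
  by_cases hc : c = 0
  · rw [hc, map_zero, h.zero]
  · exact d_unit h (b := algebraMap k R c⁻¹) (by rw [← map_mul, mul_inv_cancel₀ hc, map_one])

variable (k) in
/-- the elements of degree zero -/
def D0 (h : Dg R d) : Submodule k R where
  carrier := {a | d a = 0}
  zero_mem' := h.zero
  add_mem' := fun {a b} ha hb => Nat.le_zero.1 ((h.add a b).trans (by
    rw [show d a = 0 from ha, show d b = 0 from hb]; exact le_rfl))
  smul_mem' := fun c a ha => by
    show d (c • a) = 0
    rw [Algebra.smul_def]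
    exact d_mul0 h (d_alg h c) ha

/-- left multiplication -/
def lmul (h : Dg R d) (a : R) (ha : d a = 0) : D0 k h →ₗ[k] D0 k h where
  toFun x := ⟨a * x, d_mul0 h ha x.2⟩
  map_add' x y := Subtype.ext (mul_add a (x : R) y)
  map_smul' c x := Subtype.ext (mul_smul_comm c a (x : R))

/-- the action of a matrix with entries of degree zero -/
def mact (h : Dg R d) (g : Matrix (Fin 2) (Fin 2) R) (hg : ∀ i j, d (g i j) = 0) :
    (Fin 2 → D0 k h) →ₗ[k] (Fin 2 → D0 k h) where
  toFun x i := lmul h (g i 0) (hg i 0) (x 0) + lmul h (g i 1) (hg i 1) (x 1)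
  map_add' x y := by
    funext i
    simp only [Pi.add_apply, map_add]
    abel
  map_smul' c x := by
    funext i
    simp only [Pi.smul_apply, map_smul, smul_add, RingHom.id_apply]

/-- the representation of `A0` -/
def fA (hM : S_MEM) (h : Dg R d) : A0 d →* ((Fin 2 → D0 k h) →ₗ[k] (Fin 2 → D0 k h)) where
  toFun g := mact h (g : GLt R).val fun i j => (((hM R d h).1 g).1 g.2 i j).1
  map_one' := by
    refine LinearMap.ext fun x => ?_
    funext i
    apply Subtype.ext
    show (1 : Matrix (Fin 2) (Fin 2) R) i 0 * (x 0 : R) +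
      (1 : Matrix (Fin 2) (Fin 2) R) i 1 * (x 1 : R) = (x i : R)
    revert i
    rw [Fin.forall_fin_two]
    constructor <;> simp [Matrix.one_apply]
  map_mul' g g' := by
    refine LinearMap.ext fun x => ?_
    funext i
    apply Subtype.ext
    show ((g : GLt R).val * (g' : GLt R).val) i 0 * (x 0 : R) +
      ((g : GLt R).val * (g' : GLt R).val) i 1 * (x 1 : R) =
      (g : GLt R).val i 0 * ((g' : GLt R).val 0 0 * (x 0 : R) + (g' : GLt R).val 0 1 * (x 1 : R)) +
      (g : GLt R).val i 1 * ((g' : GLt R).val 1 0 * (x 0 : R) + (g' : GLt R).val 1 1 * (x 1 : R))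
    rw [Matrix.mul_apply, Matrix.mul_apply, Fin.sum_univ_two, Fin.sum_univ_two]
    noncomm_ring

theorem fA_inj (hM : S_MEM) (h : Dg R d) : Function.Injective (fA (k := k) hM h) := by
  intro g g' hgg
  apply Subtype.ext
  apply Units.ext
  ext i j
  let x : Fin 2 → D0 k h := fun l => if l = j then ⟨1, d_one h⟩ else 0
  have h1 : ((fA (k := k) hM h g) x i : R) = ((fA (k := k) hM h g') x i : R) := by rw [hgg]
  have h2 : ∀ g : A0 d, ((fA (k := k) hM h g) x i : R) =
      (g : GLt R).val i 0 * (x 0 : R) + (g : GLt R).val i 1 * (x 1 : R) := fun _ => rfl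
  rw [h2, h2] at h1
  fin_cases j
  · simpa [x] using h1
  · simpa [x] using h1

theorem diag {g : GLt R} (h1 : g.val 1 0 = 0) (h2 : (g⁻¹ : GLt R).val 1 0 = 0) :
    g.val 0 0 * (g⁻¹ : GLt R).val 0 0 = 1 ∧ g.val 1 1 * (g⁻¹ : GLt R).val 1 1 = 1 := by
  have h3 : g.val * (g⁻¹ : GLt R).val = 1 := by
    rw [← Units.val_mul, mul_inv_cancel, Units.val_one]
  constructor
  · have h4 := congrFun (congrFun h3 0) 0
    rw [Matrix.mul_apply, Fin.sum_univ_two, h2, mul_zero, add_zero, Matrix.one_apply_eq] at h4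
    exact h4
  · have h4 := congrFun (congrFun h3 1) 1
    rw [Matrix.mul_apply, Fin.sum_univ_two, h1, zero_mul, zero_add, Matrix.one_apply_eq] at h4
    exact h4

/-- the upper diagonal entry -/
def fB (hM : S_MEM) (h : Dg R d) (l : Fin 2) : B0 R →* (D0 k h →ₗ[k] D0 k h) where
  toFun g := lmul h ((g : GLt R).val l l) (by
    have h1 := diag ((((hM R d h).2 g).1 g.2).1) ((((hM R d h).2 g).1 g.2).2)
    fin_cases l
    · exact d_unit h h1.1
    · exact d_unit h h1.2)
  map_one' := by
    refine LinearMap.ext fun x => Subtype.ext ?_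
    show (1 : Matrix (Fin 2) (Fin 2) R) l l * (x : R) = x
    rw [Matrix.one_apply_eq, one_mul]
  map_mul' g g' := by
    refine LinearMap.ext fun x => Subtype.ext ?_
    show ((g : GLt R).val * (g' : GLt R).val) l l * (x : R) =
      (g : GLt R).val l l * ((g' : GLt R).val l l * (x : R))
    have h1 := (((hM R d h).2 g).1 g.2).1
    have h1' := (((hM R d h).2 g').1 g'.2).1
    rw [← mul_assoc, Matrix.mul_apply, Fin.sum_univ_two]
    fin_cases l
    · show ((g : GLt R).val 0 0 * (g' : GLt R).val 0 0 + (g : GLt R).val 0 1 * (g' : GLt R).val 1 0) *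
        (x : R) = _
      rw [h1', mul_zero, add_zero]
      rfl
    · show ((g : GLt R).val 1 0 * (g' : GLt R).val 0 1 + (g : GLt R).val 1 1 * (g' : GLt R).val 1 1) *
        (x : R) = _
      rw [h1, zero_mul, zero_add]
      rfl

theorem fB_one (hM : S_MEM) (h : Dg R d) (l : Fin 2) (g : B0 R)
    (hg : fB (k := k) hM h l g = 1) : (g : GLt R).val l l = 1 := by
  have h1 : ((fB (k := k) hM h l g) ⟨1, d_one h⟩ : R) = 1 := by rw [hg]; rfl
  have h2 : ((fB (k := k) hM h l g) ⟨1, d_one h⟩ : R) = (g : GLt R).val l l * 1 := rfl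
  rw [h2, mul_one] at h1
  exact h1

end deg

end VSx

theorem t_VS : S_VS := by
  intro hMEM C hC hM k R _ _ _ _ hk d hd hD
  obtain ⟨D, hDf, hDD⟩ := hD
  have hfin : FiniteDimensional k (VSx.D0 k hd) :=
    Submodule.finiteDimensional_of_le (S₂ := D) (fun a ha => hDD a ha)
  constructor
  · refine hC.base.of_injective _ _ (VSx.fA (k := k) hMEM hd).toHomUnits ?_
      (Pool.Agent.T2h61.GT.C_lin hC hk)
    intro g g' hgg
    apply VSx.fA_inj (k := k) hMEM hd
    have := congrArg Units.val hgg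
    exact this
  · refine Pool.Agent.T2h61.GT.C_abext hC hM
      ((VSx.fB (k := k) hMEM hd 0).toHomUnits.prod (VSx.fB (k := k) hMEM hd 1).toHomUnits)
      (hC.base.prod _ _ (Pool.Agent.T2h61.GT.C_lin hC hk) (Pool.Agent.T2h61.GT.C_lin hC hk)) ?_
    have key : ∀ x : B0 R, ((VSx.fB (k := k) hMEM hd 0).toHomUnits.prod
        (VSx.fB (k := k) hMEM hd 1).toHomUnits) x = 1 →
        (x : GLt R).val 0 0 = 1 ∧ (x : GLt R).val 1 1 = 1 ∧ (x : GLt R).val 1 0 = 0 := by
      intro x hx
      have h0 : (VSx.fB (k := k) hMEM hd 0).toHomUnits x = 1 := congrArg Prod.fst hx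
      have h1 : (VSx.fB (k := k) hMEM hd 1).toHomUnits x = 1 := congrArg Prod.snd hx
      exact ⟨VSx.fB_one hMEM hd 0 x (congrArg Units.val h0),
        VSx.fB_one hMEM hd 1 x (congrArg Units.val h1), (((hMEM R d hd).2 x).1 x.2).1⟩
    intro x y hx hy
    obtain ⟨x1, x2, x3⟩ := key x hx
    obtain ⟨y1, y2, y3⟩ := key y hy
    apply Subtype.ext
    apply Units.ext
    show (x : GLt R).val * (y : GLt R).val = (y : GLt R).val * (x : GLt R).val
    ext i j
    rw [Matrix.mul_apply, Matrix.mul_apply, Fin.sum_univ_two, Fin.sum_univ_two]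
    fin_cases i <;> fin_cases j
    · show (x : GLt R).val 0 0 * (y : GLt R).val 0 0 + (x : GLt R).val 0 1 * (y : GLt R).val 1 0 =
        (y : GLt R).val 0 0 * (x : GLt R).val 0 0 + (y : GLt R).val 0 1 * (x : GLt R).val 1 0
      rw [x1, y1, x3, y3]
      simp
    · show (x : GLt R).val 0 0 * (y : GLt R).val 0 1 + (x : GLt R).val 0 1 * (y : GLt R).val 1 1 =
        (y : GLt R).val 0 0 * (x : GLt R).val 0 1 + (y : GLt R).val 0 1 * (x : GLt R).val 1 1
      rw [x1, y1, x2, y2, one_mul, one_mul, mul_one, mul_one, add_comm]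
    · show (x : GLt R).val 1 0 * (y : GLt R).val 0 0 + (x : GLt R).val 1 1 * (y : GLt R).val 1 0 =
        (y : GLt R).val 1 0 * (x : GLt R).val 0 0 + (y : GLt R).val 1 1 * (x : GLt R).val 1 0
      rw [x3, y3]
      simp
    · show (x : GLt R).val 1 0 * (y : GLt R).val 0 1 + (x : GLt R).val 1 1 * (y : GLt R).val 1 1 =
        (y : GLt R).val 1 0 * (x : GLt R).val 0 1 + (y : GLt R).val 1 1 * (x : GLt R).val 1 1
      rw [x2, y2, x3, y3]
      simp

end Pool.Agent.T2h61.RF
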